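import Pool.Agent.W981.Den.Local2

/-!
# A local maximum of the rank in a large space of matrices is a global maximum, III
-/

set_option autoImplicit false
set_option linter.unusedSectionVars false

namespace Pool.Agent.W981.Den

open Pool.Agent.W981.Hyp Pool.Agent.W981.Blk Pool.Agent.W981.Aff Module Matrix
open Pool.Agent.W981.Loc (pt rank_pert exists_ginv rank_add_ker)

section final

variable {σ K : Type*} [Field K] [CharZero K] [DecidableEq σ] [Fintype σ] {n m : Type*}
  [Fintype n] [DecidableEq n] [Fintype m] [DecidableEq m]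

theorem rank_mul_proj {U : Submodule K (n → K)} {P : Matrix n n K} (h1 : ∀ w ∈ U, P *ᵥ w = w)
    (h2 : ∀ y, P *ᵥ y ∈ U) (L : Matrix m n K) :
    (L * P).rank = finrank K (U.map L.mulVecLin) := by
  have h3 : LinearMap.range (L * P).mulVecLin = U.map L.mulVecLin := by
    ext y
    constructor
    · rintro ⟨x, rfl⟩
      refine ⟨P *ᵥ x, h2 x, ?_⟩
      rw [mulVecLin_apply, mulVecLin_apply, mulVec_mulVec]
    · rintro ⟨x, hx, rfl⟩
      refine ⟨x, ?_⟩
      rw [mulVecLin_apply, mulVecLin_apply, ← mulVec_mulVec, h1 x hx]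
  rw [← h3]
  rfl

theorem imB_bot (B : Matrix m n K) (A : σ → Matrix m n K) : imB B A ⊥ = ⊥ := by
  rw [imB, im, Submodule.map_bot, bot_sup_eq]
  simp

/-- the symbolic dimension -/
noncomputable def sdim (B : Matrix m n K) (A : σ → Matrix m n K) (U : Submodule K (n → K)) : ℕ :=
  finrank (FF σ K) ((ext (FF σ K) U).map (gaf B A).mulVecLin)

theorem sdim_le (B : Matrix m n K) (A : σ → Matrix m n K) (U : Submodule K (n → K))
    (lam : σ → K) : finrank K (U.map (pt B A lam).mulVecLin) ≤ sdim B A U := by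
  have h1 := blk_le B A (U₁ := ⊥) (U₂ := U) bot_le lam
  rw [imB_bot, ext_bot, sup_bot_eq, sup_bot_eq] at h1
  exact h1

theorem sdim_point (B : Matrix m n K) (A : σ → Matrix m n K) (U : Submodule K (n → K)) :
    ∃ lam : σ → ℕ, ∑ k, lam k ≤ finrank K U ∧
      finrank K (U.map (pt B A fun k => (lam k : K)).mulVecLin) = sdim B A U := by
  obtain ⟨lam, h1, h2⟩ := blk_point B A (U₁ := ⊥) (U₂ := U) bot_le
  rw [imB_bot, ext_bot, sup_bot_eq, sup_bot_eq] at h2
  rw [finrank_bot, zero_add] at h1
  exact ⟨lam, h1, h2⟩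

theorem sdim_upper (B : Matrix m n K) (A : σ → Matrix m n K) (U : Submodule K (n → K)) :
    (gaf B A).rank + finrank K U ≤ Fintype.card n + sdim B A U := by
  have h1 := pair_upper B A ⊥ U
  rw [imB_bot, ext_bot, sup_bot_eq] at h1
  exact h1

theorem near_of_sum {k : ℕ} {lam : σ → ℕ} (h : ∑ l, lam l ≤ k) :
    near k 0 (fun l => (lam l : K)) := by
  refine ⟨Finset.univ.filter fun l => lam l ≠ 0, ?_, fun l hl => ?_⟩
  · refine le_trans ?_ h
    rw [Finset.card_eq_sum_ones, Finset.sum_filter]
    refine Finset.sum_le_sum fun l _ => ?_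
    split_ifs with h1
    · exact Nat.one_le_iff_ne_zero.2 h1
    · exact Nat.zero_le _
  · rw [Finset.mem_filter, not_and, not_not] at hl
    change (lam l : K) = 0
    rw [hl (Finset.mem_univ l), Nat.cast_zero]

theorem final (B : Matrix m n K) (A : σ → Matrix m n K) (x₀ : σ → K) {r k : ℕ}
    (U : Submodule K (n → K)) (hU : finrank K U ≤ k)
    (hlm : ∀ v, near k 0 v → {s : K | (pt B A (x₀ + s • v)).rank ≤ r ∧
      LinearMap.ker (pt B A (x₀ + s • v)).mulVecLin ≤ U}.Infinite) :
    Fintype.card n + sdim B A U ≤ r + finrank K U := by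
  have hinf : Infinite K := CharZero.infinite K
  obtain ⟨P, hP1, hP2⟩ := exists_proj U
  -- translation
  have h1 : sdim B A U ≤ sdim (pt B A x₀) A U := by
    obtain ⟨lam, -, h2⟩ := sdim_point B A U
    rw [← h2]
    have h3 := sdim_le (pt B A x₀) A U (fun k => (lam k : K) - x₀ k)
    rw [pt_pt] at h3
    have h4 : x₀ + (fun k => (lam k : K) - x₀ k) = fun k => (lam k : K) := by
      funext k
      rw [Pi.add_apply, add_sub_cancel]
    rw [h4] at h3
    exact h3
  obtain ⟨lam, h2, h3⟩ := sdim_point (pt B A x₀) A U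
  rw [pt_pt] at h3
  set v : σ → K := fun k => (lam k : K) with hv
  have hnear : near k 0 v := near_of_sum (h2.trans hU)
  have h4 := (hlm v hnear).sdiff (((drop_finite (pt B A (x₀ + v) * P)
    (dirm A v * P))).image fun t => t + 1)
  obtain ⟨s, ⟨hs1, hs2⟩, hs3⟩ := h4.nonempty
  have h5 : (pt B A (x₀ + v) * P).rank ≤ (pt B A (x₀ + v) * P +
      (s - 1) • (dirm A v * P)).rank := by
    by_contra h0
    exact hs3 ⟨s - 1, h0, sub_add_cancel _ _⟩
  have h6 : pt B A (x₀ + v) * P + (s - 1) • (dirm A v * P) = pt B A (x₀ + s • v) * P := by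
    have e1 : x₀ + s • v = (x₀ + v) + (s - 1) • v := by
      funext k
      simp only [Pi.add_apply, Pi.smul_apply, smul_eq_mul]
      ring
    rw [e1, pt_add, Matrix.add_mul, Matrix.smul_mul]
  rw [h6, rank_mul_proj hP1 hP2, rank_mul_proj hP1 hP2, h3] at h5
  have h7 := finrank_map_add (pt B A (x₀ + s • v)).mulVecLin U
  rw [inf_eq_left.2 hs2] at h7
  have h8 := rank_add_ker (pt B A (x₀ + s • v))
  omega

theorem gaf_transpose (B : Matrix m n K) (A : σ → Matrix m n K) :
    (gaf B A)ᵀ = gaf Bᵀ fun k => (A k)ᵀ := by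
  rw [gaf, gaf, transpose_add, ← gen_transpose, ← transpose_map]

/-- `(k + 1) (max(m, n) - k (k + 1))` is bigger than the codimension of the span of the `A_k` -/
def Dense (A : σ → Matrix m n K) (k : ℕ) : Prop :=
  Fintype.card m * Fintype.card n + (k + 1) * (k * (k + 1)) <
      finrank K (Submodule.span K (Set.range A)) +
        (k + 1) * max (Fintype.card m) (Fintype.card n)

theorem Dense.transpose {A : σ → Matrix m n K} {k : ℕ} (hA : Dense A k) :
    Dense (fun k => (A k)ᵀ) k := by
  rw [Dense, finrank_span_transpose, max_comm, mul_comm (Fintype.card n)]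
  exact hA

theorem dense_cert0 (B : Matrix m n K) (A : σ → Matrix m n K) {k : ℕ} (hk : 1 ≤ k)
    (hmn : Fintype.card n ≤ Fintype.card m) (hA : Dense A k)
    (h : σ → K) (hl : LocMax B A (pt B A h).rank (2 * k + 5) h) :
    (∃ U : Submodule K (n → K), finrank K U ≤ k ∧
      Fintype.card n + sdim B A U ≤ (pt B A h).rank + finrank K U) ∨
    (∃ U : Submodule K (m → K), finrank K U ≤ k ∧
      Fintype.card m + sdim Bᵀ (fun k => (A k)ᵀ) U ≤ (pt B A h).rank + finrank K U) := by
  have hinf : Infinite K := CharZero.infinite K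
  rw [Dense, max_eq_left hmn] at hA
  obtain ⟨r, hr⟩ : ∃ r, r = (pt B A h).rank := ⟨_, rfl⟩
  rw [← hr] at hl ⊢
  have hrn : r ≤ Fintype.card n := by
    rw [hr]
    exact (pt B A h).rank_le_card_width
  rcases Nat.lt_or_ge r (Fintype.card n) with hrn' | hrn'
  swap
  · refine Or.inl ⟨⊥, by rw [finrank_bot]; exact Nat.zero_le _, ?_⟩
    have : sdim B A (⊥ : Submodule K (n → K)) = 0 := by
      rw [sdim, ext_bot, Submodule.map_bot, finrank_bot]
    rw [this, finrank_bot]
    omega
  by_cases hd : finrank K (KX B A r k h) ≤ k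
  · refine Or.inl ⟨_, hd, final B A h _ hd fun v hv => ?_⟩
    refine (drop_finite (pt B A h) (dirm A v)).infinite_compl.mono fun s hs => ?_
    have hs' : (pt B A h).rank ≤ (pt B A h + s • dirm A v).rank := by
      by_contra h0
      exact hs h0
    have h0 : Gd B A r 0 h h := ⟨near_refl 0 h, hr.le⟩
    have h1 := gd_line h0 hv hs'
    rw [zero_add] at h1
    exact ⟨hl _ (near_mono (by omega) h1.1), ker_le_KX h1⟩
  · have a1 := finrank_ann A
    have a2 := finrank_ann fun k => (A k)ᵀ
    rw [finrank_span_transpose, mul_comm (Fintype.card n)] at a2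
    obtain ⟨x, hx, he⟩ := exists_small_ee hl hr.le hrn' hk (c := k) (by omega) (by omega)
      (by omega)
    set W : Submodule K (m → K) := Submodule.span K {w | ∃ y, near k x y ∧
      r ≤ (pt B A y).rank ∧ ee B A y ≤ k ∧ w ᵥ* pt B A y = 0} with hW
    have hWk : finrank K W ≤ k := by
      by_contra hcon
      obtain ⟨w, hw, -, hli⟩ := Submodule.exists_fun_fin_finrank_span_eq K
        {w | ∃ y, near k x y ∧ r ≤ (pt B A y).rank ∧ ee B A y ≤ k ∧ w ᵥ* pt B A y = 0}
      have hc : k + 1 ≤ finrank K W := by omega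
      let ιc : Fin (k + 1) → Fin (finrank K W) := Fin.castLE hc
      choose y hy1 hy2 hy3 hy4 using hw
      have h2 := tangent_loc hl (c := 2 * k + 3) (k := k) (f := k + 1) (by omega)
        (fun i => y (ιc i))
        (fun i => ⟨near_mono (by omega) (near_trans hx.1 (hy1 (ιc i))), hy2 (ιc i)⟩)
        (fun i => hy3 (ιc i)) (fun i => w (ιc i)) (fun i => hy4 (ιc i))
        (hli.comp _ (Fin.castLE_injective hc))
      have h3 := s_le_ee hl (by omega) hx
      exact arith2 (N := Fintype.card m) (a := finrank K (ann A)) (s := Fintype.card n - r)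
        (e := ee B A x) (by omega) he (by omega) rfl h2
    refine Or.inr ⟨W, hWk, final Bᵀ (fun k => (A k)ᵀ) x W hWk fun v hv => ?_⟩
    have b0 : ∀ s : K, (pt B A x + s • dirm A v).rank ≤ (pt B A x).rank :=
      rank_line hl (by omega) hx hv
    have b1 := (drop_finite (pt B A x) (dirm A v)).union
      (ak_finite A (pt B A x) (dirm A v) b0)
    refine b1.infinite_compl.mono fun s hs => ?_
    rw [Set.mem_compl_iff, Set.mem_union, not_or] at hs
    have hs1 : (pt B A x).rank ≤ (pt B A x + s • dirm A v).rank := by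
      by_contra h0
      exact hs.1 h0
    have hs2 : finrank K (AKs A (pt B A x)) ≤
        finrank K (AKs A (pt B A x + s • dirm A v)) := by
      by_contra h0
      exact hs.2 h0
    have h1 := gd_line hx hv hs1
    rw [← pt_add] at hs2
    have h3 := finrank_perp_AKs (B := B) (A := A) x
    have h4 := finrank_perp_AKs (B := B) (A := A) (x + s • v)
    refine ⟨?_, fun w hw => Submodule.subset_span ⟨x + s • v, near_smul hv x s, h1.2,
      by omega, ?_⟩⟩
    · rw [pt_transpose, Matrix.rank_transpose]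
      exact hl _ (near_mono (by omega) h1.1)
    · rw [pt_transpose, LinearMap.mem_ker, mulVecLin_apply, Matrix.mulVec_transpose] at hw
      exact hw

/-- **A certificate at a local maximum.** -/
theorem dense_cert (B : Matrix m n K) (A : σ → Matrix m n K) {k : ℕ} (hk : 1 ≤ k)
    (hA : Dense A k)
    (h : σ → K) (hl : LocMax B A (pt B A h).rank (2 * k + 5) h) :
    (∃ U : Submodule K (n → K), finrank K U ≤ k ∧
      Fintype.card n + sdim B A U ≤ (pt B A h).rank + finrank K U) ∨
    (∃ U : Submodule K (m → K), finrank K U ≤ k ∧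
      Fintype.card m + sdim Bᵀ (fun k => (A k)ᵀ) U ≤ (pt B A h).rank + finrank K U) := by
  rcases le_total (Fintype.card n) (Fintype.card m) with hmn | hmn
  · exact dense_cert0 B A hk hmn hA h hl
  · have e1 : (pt Bᵀ (fun k => (A k)ᵀ) h).rank = (pt B A h).rank := by
      rw [pt_transpose, Matrix.rank_transpose]
    have h1 := dense_cert0 Bᵀ (fun k => (A k)ᵀ) hk hmn hA.transpose h (by
      rw [e1]
      exact locMax_transpose hl)
    rw [e1] at h1
    simp only [Matrix.transpose_transpose] at h1
    exact h1.symm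

/-- the rank is bounded at a local maximum -/
theorem dense_rank (B : Matrix m n K) (A : σ → Matrix m n K) {k : ℕ} (hk : 1 ≤ k)
    (hA : Dense A k) (h : σ → K) (hl : LocMax B A (pt B A h).rank (2 * k + 5) h) :
    (gaf B A).rank = (pt B A h).rank := by
  rcases dense_cert B A hk hA h hl with ⟨U, -, h1⟩ | ⟨U, -, h1⟩
  · have h2 := sdim_upper B A U
    have h3 := gaf_point_le B A h
    exact le_antisymm (by omega) h3
  · have h2 := sdim_upper Bᵀ (fun k => (A k)ᵀ) U
    rw [← gaf_transpose, Matrix.rank_transpose] at h2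
    have h3 := gaf_point_le B A h
    exact le_antisymm (by omega) h3

/-- integer moves suffice -/
theorem locMax_of_moves (B : Matrix m n K) (A : σ → Matrix m n K) {C : ℕ} (h : σ → K)
    (hl : ∀ lam : σ → ℕ, (Finset.univ.filter fun k => lam k ≠ 0).card ≤ C →
      ∑ k, lam k ≤ min (Fintype.card m) (Fintype.card n) →
        (pt B A (h + fun k => (lam k : K))).rank ≤ (pt B A h).rank) :
    LocMax B A (pt B A h).rank C h := by
  rintro x ⟨S, hS, hx⟩
  obtain ⟨A', hA'⟩ : ∃ A' : σ → Matrix m n K, ∀ k, A' k = if k ∈ S then A k else 0 :=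
    ⟨_, fun k => rfl⟩
  obtain ⟨lam, h1, h2⟩ := gaf_special_point (pt B A h) A'
  have h3 := gaf_point_le (pt B A h) A' (fun k => x k - h k)
  have e1 : pt B A h + ∑ k, (x k - h k) • A' k = pt B A x := by
    have : pt B A h + ∑ k, (x k - h k) • A' k = pt (pt B A h) A (fun k => x k - h k) := by
      change _ = pt B A h + ∑ k, (x k - h k) • A k
      congr 1
      refine Finset.sum_congr rfl fun k _ => ?_
      rw [hA']
      split_ifs with hk
      · rfl
      · rw [hx k hk, sub_self, zero_smul, zero_smul]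
    rw [this, pt_pt]
    congr 1
    funext k
    rw [Pi.add_apply, add_sub_cancel]
  have e2 : pt B A h + ∑ k, (lam k : K) • A' k =
      pt B A (h + fun k => ((if k ∈ S then lam k else 0 : ℕ) : K)) := by
    rw [← pt_pt]
    change _ = pt B A h + ∑ k, ((if k ∈ S then lam k else 0 : ℕ) : K) • A k
    congr 1
    refine Finset.sum_congr rfl fun k _ => ?_
    rw [hA']
    split_ifs with hk
    · rfl
    · rw [smul_zero, Nat.cast_zero, zero_smul]
  rw [e1] at h3
  rw [e2] at h2
  refine h3.trans (h2.trans (hl _ ?_ ?_))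
  · refine le_trans (Finset.card_le_card fun k hk => ?_) hS
    rw [Finset.mem_filter] at hk
    by_contra h0
    exact hk.2 (if_neg h0)
  · refine le_trans ?_ (h1.trans (le_min (Matrix.rank_le_card_height _)
      (Matrix.rank_le_card_width _)))
    refine Finset.sum_le_sum fun k _ => ?_
    split_ifs
    · exact le_refl _
    · exact Nat.zero_le _

/-- **Local search.** -/
theorem dense_search (B : Matrix m n K) (A : σ → Matrix m n K) {k : ℕ} (hk : 1 ≤ k)
    (hA : Dense A k) (h : σ → K) (hh : (pt B A h).rank < (gaf B A).rank) :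
    ∃ lam : σ → ℕ, (Finset.univ.filter fun k => lam k ≠ 0).card ≤ 2 * k + 5 ∧
      ∑ k, lam k ≤ min (Fintype.card m) (Fintype.card n) ∧
        (pt B A h).rank < (pt B A (h + fun k => (lam k : K))).rank := by
  by_contra hcon
  have h1 : LocMax B A (pt B A h).rank (2 * k + 5) h := by
    refine locMax_of_moves B A h fun lam a1 a2 => ?_
    by_contra h0
    exact hcon ⟨lam, a1, a2, not_le.1 h0⟩
  have h2 := dense_rank B A hk hA h h1
  omega

/-- **The certificate.** -/
theorem dense_exists (B : Matrix m n K) (A : σ → Matrix m n K) {k : ℕ} (hk : 1 ≤ k)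
    (hA : Dense A k) :
    (∃ U : Submodule K (n → K), finrank K U ≤ k ∧
      (gaf B A).rank + finrank K U = Fintype.card n + sdim B A U) ∨
    (∃ U : Submodule K (m → K), finrank K U ≤ k ∧
      (gaf B A).rank + finrank K U = Fintype.card m + sdim Bᵀ (fun k => (A k)ᵀ) U) := by
  obtain ⟨lam, -, h1⟩ := gaf_special_point B A
  have h2 : (pt B A fun k => (lam k : K)).rank = (gaf B A).rank :=
    le_antisymm (gaf_point_le B A _) h1
  rcases dense_cert B A hk hA (fun k => (lam k : K)) (fun x _ => by
    rw [h2]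
    exact gaf_point_le B A x) with ⟨U, hU, h3⟩ | ⟨U, hU, h3⟩
  · refine Or.inl ⟨U, hU, ?_⟩
    have := sdim_upper B A U
    omega
  · refine Or.inr ⟨U, hU, ?_⟩
    have := sdim_upper Bᵀ (fun k => (A k)ᵀ) U
    rw [← gaf_transpose, Matrix.rank_transpose] at this
    omega

end final

end Pool.Agent.W981.Den
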