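import Pool.Agent.W981.Aff.Points

/-!
# Polynomial vectors and their values; a counting lemma
-/

set_option autoImplicit false
set_option linter.unusedSectionVars false

namespace Pool.Agent.W981.Den

open Pool.Agent.W981.Hyp Pool.Agent.W981.Blk Pool.Agent.W981.Aff Module Matrix MvPolynomial

section poly

variable {σ K : Type*} [Field K] {n : Type*} [Fintype n]

/-- a polynomial vector as a vector of rational functions -/
noncomputable def fr (y : n → MvPolynomial σ K) : n → FF σ K :=
  fun i => algebraMap (MvPolynomial σ K) (FF σ K) (y i)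

/-- the value of a polynomial vector -/
noncomputable def val (t : σ → K) (y : n → MvPolynomial σ K) : n → K := fun i => eval t (y i)

theorem exists_poly_basis (Z : Submodule (FF σ K) (n → FF σ K)) :
    ∃ zz : Fin (finrank (FF σ K) Z) → n → MvPolynomial σ K,
      LinearIndependent (FF σ K) (fun j => fr (zz j)) ∧
      Submodule.span (FF σ K) (Set.range fun j => fr (zz j)) = Z := by
  classical
  set b := Module.finBasis (FF σ K) Z with hb
  have h1 : ∀ j, ∃ (q : nonZeroDivisors (MvPolynomial σ K)) (y : n → MvPolynomial σ K),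
      fr y = algebraMap _ (FF σ K) (q : MvPolynomial σ K) • (b j : n → FF σ K) := by
    intro j
    obtain ⟨q, hq⟩ := IsLocalization.exist_integer_multiples (nonZeroDivisors (MvPolynomial σ K))
      (Finset.univ : Finset n) (fun i => (b j : n → FF σ K) i)
    choose y hy using fun i => hq i (Finset.mem_univ i)
    refine ⟨q, y, funext fun i => ?_⟩
    rw [fr, hy i, Pi.smul_apply, Algebra.smul_def, smul_eq_mul]
  choose q y hy using h1
  have hq : ∀ j, algebraMap _ (FF σ K) (q j : MvPolynomial σ K) ≠ 0 := by
    intro j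
    rw [Ne, FaithfulSMul.algebraMap_eq_zero_iff]
    exact nonZeroDivisors.ne_zero (q j).2
  have hli : LinearIndependent (FF σ K) (fun j => (b j : n → FF σ K)) :=
    b.linearIndependent.map' Z.subtype (Submodule.ker_subtype Z)
  have hspan : Submodule.span (FF σ K) (Set.range fun j => (b j : n → FF σ K)) = Z := by
    have h1 := congrArg (Submodule.map Z.subtype) b.span_eq
    rw [Submodule.map_span, Submodule.map_top, Submodule.range_subtype, ← Set.range_comp] at h1
    exact h1
  refine ⟨y, ?_, ?_⟩
  · have h2 := hli.units_smul (fun j => Units.mk0 _ (hq j))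
    have h3 : (fun j => fr (y j)) = (fun j => Units.mk0 _ (hq j)) • fun j =>
        (b j : n → FF σ K) := by
      funext j
      rw [hy]
      rfl
    rw [h3]
    exact h2
  · refine Eq.trans ?_ hspan
    apply le_antisymm
    · rw [Submodule.span_le]
      rintro _ ⟨j, rfl⟩
      change fr (y j) ∈ _
      rw [hy]
      exact Submodule.smul_mem _ _ (Submodule.subset_span ⟨j, rfl⟩)
    · rw [Submodule.span_le]
      rintro _ ⟨j, rfl⟩
      have h4 : (b j : n → FF σ K) = (algebraMap _ (FF σ K) (q j : MvPolynomial σ K))⁻¹ •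
          fr (y j) := by
        rw [hy, smul_smul, inv_mul_cancel₀ (hq j), one_smul]
      change (b j : n → FF σ K) ∈ _
      rw [h4]
      exact Submodule.smul_mem _ _ (Submodule.subset_span ⟨j, rfl⟩)

/-- the rank does not drop at most points -/
theorem exists_open {ι : Type*} [Fintype ι] (v : ι → n → MvPolynomial σ K) :
    ∃ g : MvPolynomial σ K, g ≠ 0 ∧ ∀ t : σ → K, eval t g ≠ 0 →
      finrank (FF σ K) (Submodule.span (FF σ K) (Set.range fun j => fr (v j))) ≤
        finrank K (Submodule.span K (Set.range fun j => val t (v j))) := by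
  classical
  set M : Matrix ι n (MvPolynomial σ K) := Matrix.of v with hM
  obtain ⟨e, f, h⟩ := exists_poly_minor M (le_refl (rk M))
  refine ⟨_, h, fun t ht => ?_⟩
  have h1 : rk M = finrank (FF σ K) (Submodule.span (FF σ K) (Set.range fun j => fr (v j))) := by
    rw [rk, Matrix.rank_eq_finrank_span_row]
    rfl
  have h2 : (M.map (eval t)).rank =
      finrank K (Submodule.span K (Set.range fun j => val t (v j))) := by
    rw [Matrix.rank_eq_finrank_span_row]
    rfl
  rw [← h1, ← h2]
  refine le_rank_of_minor _ e f ?_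
  rw [det_map_sub]
  exact ht

theorem dot_fr (x y : n → MvPolynomial σ K) :
    fr x ⬝ᵥ fr y = algebraMap _ (FF σ K) (x ⬝ᵥ y) := by
  simp [fr, dotProduct]

theorem dot_val (t : σ → K) (x y : n → MvPolynomial σ K) :
    val t x ⬝ᵥ val t y = eval t (x ⬝ᵥ y) := by
  simp [val, dotProduct]

theorem fr_C (ψ : n → K) : fr (σ := σ) (fun i => C (ψ i)) = up (FF σ K) ψ := by
  classical
  funext i
  rw [fr, up, Pool.Agent.W981.Hyp.algebraMap_C]

theorem val_C (t : σ → K) (ψ : n → K) : val t (fun i => C (ψ i)) = ψ := by
  funext i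
  rw [val, eval_C]

theorem eq_zero_of_eval [Infinite K] {g f : MvPolynomial σ K} (hg : g ≠ 0)
    (h : ∀ t, eval t g ≠ 0 → eval t f = 0) : f = 0 := by
  have h1 : g * f = 0 := by
    refine MvPolynomial.funext fun t => ?_
    rw [map_mul, map_zero]
    by_cases ht : eval t g = 0
    · rw [ht, zero_mul]
    · rw [h t ht, mul_zero]
  exact (mul_eq_zero.1 h1).resolve_left hg

/-- the values span the hull -/
theorem hull_le_values [Infinite K] {ι : Type*} (v : ι → n → MvPolynomial σ K)
    {g : MvPolynomial σ K} (hg : g ≠ 0) :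
    hull K (Submodule.span (FF σ K) (Set.range fun j => fr (v j))) ≤
      Submodule.span K {x | ∃ j t, eval t g ≠ 0 ∧ val t (v j) = x} := by
  intro y hy
  rw [mem_iff_dot]
  intro ψ hψ
  refine hy ψ fun z hz => ?_
  induction hz using Submodule.span_induction with
  | mem x hx =>
    obtain ⟨j, rfl⟩ := hx
    rw [← fr_C, dot_fr]
    have h1 : (fun i => (C (ψ i) : MvPolynomial σ K)) ⬝ᵥ v j = 0 := by
      refine eq_zero_of_eval hg fun t ht => ?_
      rw [← dot_val, val_C]
      exact hψ _ (Submodule.subset_span ⟨j, t, ht, rfl⟩)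
    rw [h1, map_zero]
  | zero => rw [dotProduct_zero]
  | add x y _ _ hx hy => rw [dotProduct_add, hx, hy, add_zero]
  | smul c x _ hx => rw [dotProduct_smul, hx, smul_zero]

end poly

section count

variable {K : Type*} [Field K] {n m : Type*} [Fintype n] [Fintype m]

/-- dual vectors -/
theorem exists_dual {d : ℕ} {x : Fin d → n → K} (hx : LinearIndependent K x) :
    ∃ ξ : Fin d → n → K, ∀ i j, ξ i ⬝ᵥ x j = if i = j then 1 else 0 := by
  classical
  obtain ⟨g, hg⟩ := LinearMap.exists_leftInverse_of_injective
    (Fintype.linearCombination K x) (by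
      rw [LinearMap.ker_eq_bot]
      exact linearIndependent_iff_injective_fintypeLinearCombination.1 hx)
  refine ⟨fun i a => g (Pi.single a 1) i, fun i j => ?_⟩
  have h1 : (g (x j)) = Pi.single j 1 := by
    have := congrArg (fun f => f (Pi.single j 1)) hg
    simpa [Fintype.linearCombination_apply_single] using this
  have h2 : g (x j) = ∑ a, x j a • g (Pi.single a 1) := by
    conv_lhs => rw [pi_eq_sum_univ' (x j)]
    rw [map_sum]
    refine Finset.sum_congr rfl fun a _ => ?_
    rw [← map_smul]
  have h3 := congrFun h2 i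
  rw [h1, Finset.sum_apply] at h3
  rw [dotProduct]
  calc ∑ a, g (Pi.single a 1) i * x j a = ∑ a, (x j a • g (Pi.single a 1)) i := by
        refine Finset.sum_congr rfl fun a _ => ?_
        rw [Pi.smul_apply, smul_eq_mul, mul_comm]
    _ = (Pi.single j 1 : Fin d → K) i := h3.symm
    _ = _ := by
        rw [Pi.single_apply]

/-- **The counting lemma.** -/
theorem count {d : ℕ} {w : Fin d → m → K} (hw : LinearIndependent K w)
    (N : Submodule K (Matrix m n K)) (S : Submodule K (n → K))
    (T : Fin d → Submodule K (n → K))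
    (h : ∀ i, ∀ τ ∈ T i, ∃ M ∈ N, ∀ η : m → K, η ᵥ* (M - vecMulVec (w i) τ) ∈ S) :
    ∑ i, (finrank K (T i) - finrank K S) ≤ finrank K N := by
  classical
  obtain ⟨η, hη⟩ := exists_dual hw
  -- the map
  let Θ : Matrix m n K →ₗ[K] (Fin d → (n → K) ⧸ S) := LinearMap.pi fun i =>
    S.mkQ ∘ₗ ((Matrix.vecMulBilin K K : (m → K) →ₗ[K] Matrix m n K →ₗ[K] (n → K)) (η i))
  have hΘ : ∀ M i, Θ M i = S.mkQ (η i ᵥ* M) := fun M i => rfl
  set P : Submodule K (Fin d → (n → K) ⧸ S) := Submodule.pi Set.univ fun i => (T i).map S.mkQ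
    with hP
  have h1 : P ≤ N.map Θ := by
    intro f hf
    have hf' : ∀ i, ∃ τ ∈ T i, S.mkQ τ = f i := fun i => hf i (Set.mem_univ i)
    choose τ hτ hτf using hf'
    choose M hM hM2 using fun i => h i (τ i) (hτ i)
    refine ⟨∑ i, M i, Submodule.sum_mem _ fun i _ => hM i, ?_⟩
    funext j
    rw [map_sum, Finset.sum_apply, Finset.sum_eq_single j]
    · rw [hΘ, ← hτf j]
      have h2 := hM2 j (η j)
      rw [vecMul_sub] at h2
      have h3 : η j ᵥ* vecMulVec (w j) (τ j) = τ j := by
        rw [vecMul_vecMulVec, hη, if_pos rfl, one_smul]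
      rw [h3] at h2
      rw [← sub_eq_zero, ← map_sub]
      rw [Submodule.mkQ_apply, Submodule.Quotient.mk_eq_zero]
      exact h2
    · intro i _ hij
      rw [hΘ]
      have h2 := hM2 i (η j)
      rw [vecMul_sub] at h2
      have h3 : η j ᵥ* vecMulVec (w i) (τ i) = 0 := by
        rw [vecMul_vecMulVec, hη, if_neg (Ne.symm hij), zero_smul]
      rw [h3, sub_zero] at h2
      rw [Submodule.mkQ_apply, Submodule.Quotient.mk_eq_zero]
      exact h2
    · intro h0
      exact absurd (Finset.mem_univ _) h0
  have h2 : finrank K P = ∑ i, finrank K ((T i).map S.mkQ) := by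
    have e : P ≃ₗ[K] ((i : Fin d) → (T i).map S.mkQ) :=
      { toFun := fun f i => ⟨f.1 i, f.2 i (Set.mem_univ i)⟩
        map_add' := fun f g => rfl
        map_smul' := fun c f => rfl
        invFun := fun f => ⟨fun i => (f i).1, fun i _ => (f i).2⟩
        left_inv := fun f => rfl
        right_inv := fun f => rfl }
    rw [e.finrank_eq, Module.finrank_pi_fintype]
  have h3 : ∀ i, finrank K (T i) - finrank K S ≤ finrank K ((T i).map S.mkQ) := by
    intro i
    have e1 := finrank_map_add S.mkQ (T i)
    have e2 : finrank K (LinearMap.ker S.mkQ ⊓ T i : Submodule K (n → K)) ≤ finrank K S := by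
      rw [Submodule.ker_mkQ]
      exact Submodule.finrank_mono inf_le_left
    omega
  calc ∑ i, (finrank K (T i) - finrank K S) ≤ ∑ i, finrank K ((T i).map S.mkQ) :=
        Finset.sum_le_sum fun i _ => h3 i
    _ = finrank K P := h2.symm
    _ ≤ finrank K (N.map Θ) := Submodule.finrank_mono h1
    _ ≤ finrank K N := Submodule.finrank_map_le _ _

end count

end Pool.Agent.W981.Den
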