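import Pool.Agent.W981.Den.Main
import Pool.Agent.W981.Loc.Core

/-!
# Lines through a point where the rank is maximal
-/

set_option autoImplicit false
set_option linter.unusedSectionVars false

namespace Pool.Agent.W981.Den

open Pool.Agent.W981.Hyp Pool.Agent.W981.Blk Pool.Agent.W981.Aff Module Matrix
open Pool.Agent.W981.Loc (rank_pert exists_ginv Good good_zero_left good_zero_right pert_eq
  pert_ker rank_add_ker det_finite proj_apply eval_adj)

section line

variable {K : Type*} [Field K] [Infinite K] {n m : Type*} [Fintype n] [DecidableEq n]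
  [Fintype m] [DecidableEq m] {L N : Matrix m n K} {G : Matrix n m K}

/-- the rank does not drop for most parameters -/
theorem drop_finite (L N : Matrix m n K) : {s : K | ¬ L.rank ≤ (L + s • N).rank}.Finite := by
  obtain ⟨G, hG⟩ := exists_ginv L
  refine (det_finite (G * N)).subset fun s hs => ?_
  by_contra h
  exact hs (rank_pert hG h)

theorem good_all (h : ∀ s : K, (L + s • N).rank ≤ L.rank) : (Good L N ∅).Infinite := by
  have : Good L N ∅ = Set.univ := by
    ext s
    exact ⟨fun _ => trivial, fun _ => ⟨h s, fun v hv => absurd hv (Set.notMem_empty v)⟩⟩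
  rw [this]
  exact Set.infinite_univ

theorem first_order (hG : L * G * L = L) (h : ∀ s : K, (L + s • N).rank ≤ L.rank) {x : n → K}
    (hx : L *ᵥ x = 0) : L *ᵥ (G *ᵥ (N *ᵥ x)) = N *ᵥ x := by
  have h2 := good_zero_left hG ∅ (good_all h) 0
  rw [pow_zero, Matrix.mul_one] at h2
  have h3 := congrArg (fun T => T *ᵥ x) h2
  simp only [zero_mulVec] at h3
  rw [← mulVec_mulVec, proj_apply G hx, ← mulVec_mulVec, Matrix.sub_mulVec, Matrix.one_mulVec,
    sub_eq_zero] at h3
  calc L *ᵥ (G *ᵥ (N *ᵥ x)) = (L * G) *ᵥ (N *ᵥ x) := Matrix.mulVec_mulVec _ _ _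
    _ = _ := h3.symm

theorem sq_zero (hG : L * G * L = L) (h : ∀ s : K, (L + s • N).rank ≤ L.rank) {w : m → K}
    {x : n → K} (hw : w ᵥ* L = 0) (hx : L *ᵥ x = 0) : w ⬝ᵥ (N *ᵥ (G *ᵥ (N *ᵥ x))) = 0 := by
  have h2 := good_zero_left hG ∅ (good_all h) 1
  rw [pow_one] at h2
  have h3 := congrArg (fun T => w ⬝ᵥ (T *ᵥ x)) h2
  simp only [zero_mulVec, dotProduct_zero] at h3
  rw [← mulVec_mulVec, proj_apply G hx] at h3
  have h4 : ((1 - L * G) * N * (G * N)) *ᵥ x = (1 - L * G) *ᵥ (N *ᵥ (G *ᵥ (N *ᵥ x))) := by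
    simp only [mulVec_mulVec, Matrix.mul_assoc]
  rw [h4, Matrix.sub_mulVec, one_mulVec, dotProduct_sub, ← mulVec_mulVec, dotProduct_mulVec w L,
    hw, zero_dotProduct, sub_zero] at h3
  exact h3

theorem second_order {N' : Matrix m n K} (hG : L * G * L = L)
    (h : ∀ s : K, (L + s • N).rank ≤ L.rank) (h' : ∀ s : K, (L + s • N').rank ≤ L.rank)
    (h2 : ∀ s : K, (L + s • (N + N')).rank ≤ L.rank) {w : m → K} {x : n → K}
    (hw : w ᵥ* L = 0) (hx : L *ᵥ x = 0) :
    w ⬝ᵥ (N *ᵥ (G *ᵥ (N' *ᵥ x))) + w ⬝ᵥ (N' *ᵥ (G *ᵥ (N *ᵥ x))) = 0 := by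
  have e1 := sq_zero hG h hw hx
  have e2 := sq_zero hG h' hw hx
  have e3 := sq_zero hG h2 hw hx
  rw [Matrix.add_mulVec N N' x, mulVec_add, Matrix.add_mulVec, mulVec_add, mulVec_add,
    dotProduct_add, dotProduct_add, dotProduct_add, e1, e2] at e3
  rw [zero_add, add_zero] at e3
  exact e3

theorem tangent_mem (hG : L * G * L = L) (h : ∀ s : K, (L + s • N).rank ≤ L.rank)
    (W : Submodule K (n → K)) (hW : ∀ s : K, L.rank ≤ (L + s • N).rank → ∀ y,
      (L + s • N) *ᵥ y = 0 → y ∈ W) {x : n → K} (hx : L *ᵥ x = 0) :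
    G *ᵥ (N *ᵥ x) ∈ W := by
  rw [mem_iff_dot]
  intro ψ hψ
  have hinf : (Good L N {ψ}).Infinite := by
    refine (drop_finite L N).infinite_compl.mono fun s hs => ?_
    have hs' : L.rank ≤ (L + s • N).rank := by
      by_contra h0
      exact hs h0
    refine ⟨h s, fun v hv y hy => ?_⟩
    rw [Set.mem_singleton_iff] at hv
    subst hv
    exact hψ y (hW s hs' y hy)
  have h1 := good_zero_right hG {ψ} hinf (Set.mem_singleton ψ) 1 hx
  rw [pow_one, ← mulVec_mulVec] at h1
  exact h1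

theorem ker_adj (hG : L * G * L = L) {s : K} (hs : (1 + s • (G * N)).det ≠ 0)
    (hr : (L + s • N).rank ≤ L.rank) {x : n → K} (hx : L *ᵥ x = 0) :
    (L + s • N) *ᵥ ((1 + s • (G * N)).adjugate *ᵥ x) = 0 := by
  have hR : (1 + s • (G * N)) * ((1 + s • (G * N)).det⁻¹ • (1 + s • (G * N)).adjugate) = 1 := by
    rw [Matrix.mul_smul, Matrix.mul_adjugate, smul_smul, inv_mul_cancel₀ hs, one_smul]
  have h2 := pert_ker hG s _ hR hr hx
  have h3 : (L + s • N) *ᵥ (((1 + s • (G * N)).det⁻¹ • (1 + s • (G * N)).adjugate) *ᵥ x) =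
      0 := by
    rw [mulVec_mulVec, pert_eq hG s _ hR, Matrix.add_mulVec, hx, zero_add,
      ← mulVec_mulVec, h2]
  rw [smul_mulVec, mulVec_smul, smul_eq_zero] at h3
  exact h3.resolve_left (inv_ne_zero hs)

/-- the span of the vectors `A_k z`, `z` in the kernel of `L` -/
def AKs {σ : Type*} (A : σ → Matrix m n K) (L : Matrix m n K) : Submodule K (m → K) :=
  Submodule.span K {y | ∃ k z, L *ᵥ z = 0 ∧ A k *ᵥ z = y}

theorem ak_finite {σ : Type*} (A : σ → Matrix m n K) (L N : Matrix m n K)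
    (hr : ∀ s : K, (L + s • N).rank ≤ L.rank) :
    {s : K | ¬ finrank K (AKs A L) ≤ finrank K (AKs A (L + s • N))}.Finite := by
  obtain ⟨G, hG⟩ := exists_ginv L
  obtain ⟨y, hy, -, hli⟩ := Submodule.exists_fun_fin_finrank_span_eq K
    {y | ∃ k z, L *ᵥ z = 0 ∧ A k *ᵥ z = y}
  choose k z hz hyz using hy
  obtain ⟨ξ, hξ⟩ := exists_dual hli
  obtain ⟨d, hd⟩ : ∃ d, d = finrank K (Submodule.span K
    {y | ∃ k z, L *ᵥ z = 0 ∧ A k *ᵥ z = y}) := ⟨_, rfl⟩
  let Y : Fin (finrank K (Submodule.span K {y | ∃ k z, L *ᵥ z = 0 ∧ A k *ᵥ z = y})) →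
    Fin (finrank K (Submodule.span K {y | ∃ k z, L *ᵥ z = 0 ∧ A k *ᵥ z = y})) →
    Matrix Unit n K := fun j i => Matrix.of fun _ a => (ξ j ᵥ* A (k i)) a
  let Q : Fin (finrank K (Submodule.span K {y | ∃ k z, L *ᵥ z = 0 ∧ A k *ᵥ z = y})) →
    Matrix n Unit K := fun i => Matrix.of fun a _ => z i a
  let P : Matrix (Fin (finrank K (Submodule.span K {y | ∃ k z, L *ᵥ z = 0 ∧ A k *ᵥ z = y})))
    (Fin (finrank K (Submodule.span K {y | ∃ k z, L *ᵥ z = 0 ∧ A k *ᵥ z = y})))
    (Polynomial K) := Matrix.of fun j i => (((Y j i).map Polynomial.C) *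
      (1 + (Polynomial.X : Polynomial K) • (G * N).map Polynomial.C).adjugate *
      (Q i).map Polynomial.C) () ()
  have hP : ∀ s j i, Polynomial.eval s (P j i) =
      ξ j ⬝ᵥ (A (k i) *ᵥ ((1 + s • (G * N)).adjugate *ᵥ z i)) := by
    intro s j i
    have h1 := congrFun (congrFun (eval_adj (Y j i) (G * N) (Q i) s) ()) ()
    change _ = (Y j i * (1 + s • (G * N)).adjugate * Q i) () () at h1
    refine h1.trans ?_
    rw [Matrix.mul_assoc, dotProduct_mulVec]
    rfl
  have hP0 : P.det ≠ 0 := by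
    intro h0
    have h1 := congrArg (Polynomial.evalRingHom 0) h0
    rw [RingHom.map_det, map_zero] at h1
    have h2 : (Polynomial.evalRingHom 0).mapMatrix P = 1 := by
      ext j i
      rw [RingHom.mapMatrix_apply, Matrix.map_apply]
      change Polynomial.eval 0 (P j i) = _
      rw [hP, zero_smul, add_zero, Matrix.adjugate_one, one_mulVec, hyz, hξ, Matrix.one_apply]
    rw [h2, det_one] at h1
    exact one_ne_zero h1
  have hfin : {s : K | Polynomial.eval s P.det = 0}.Finite := by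
    by_contra h
    exact hP0 (Polynomial.eq_zero_of_infinite_isRoot _ h)
  refine (hfin.union (det_finite (G * N))).subset fun s hs => ?_
  by_contra h
  rw [Set.mem_union, not_or] at h
  obtain ⟨h1, h2⟩ := h
  refine hs ?_
  have h3 : LinearIndependent K (fun i => A (k i) *ᵥ ((1 + s • (G * N)).adjugate *ᵥ z i)) := by
    rw [Fintype.linearIndependent_iff]
    intro g hg
    have h4 : (P.map (Polynomial.evalRingHom s)).det ≠ 0 := by
      intro h0
      refine h1 ?_
      change Polynomial.evalRingHom s P.det = 0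
      rw [RingHom.map_det]
      exact h0
    have h5 : (P.map (Polynomial.evalRingHom s)) *ᵥ g = 0 := by
      funext j
      have h6 := congrArg (fun v => ξ j ⬝ᵥ v) hg
      simp only [dotProduct_zero, dotProduct_sum, dotProduct_smul, smul_eq_mul] at h6
      rw [Pi.zero_apply, ← h6]
      change ∑ i, (P.map (Polynomial.evalRingHom s)) j i * g i = _
      refine Finset.sum_congr rfl fun i _ => ?_
      rw [Matrix.map_apply]
      change Polynomial.eval s (P j i) * g i = _
      rw [hP, mul_comm]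
    exact fun i => congrFun (Matrix.eq_zero_of_mulVec_eq_zero h4 h5) i
  have h4 : Submodule.span K (Set.range fun i =>
      A (k i) *ᵥ ((1 + s • (G * N)).adjugate *ᵥ z i)) ≤ AKs A (L + s • N) := by
    rw [Submodule.span_le]
    rintro _ ⟨i, rfl⟩
    exact Submodule.subset_span ⟨k i, _, ker_adj hG h2 (hr s) (hz i), rfl⟩
  have h5 := Submodule.finrank_mono h4
  rw [finrank_span_eq_card h3, Fintype.card_fin] at h5
  exact h5

end line

end Pool.Agent.W981.Den
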