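import Pool.Agent.W981.Den.Line

/-!
# A local maximum of the rank in a large space of matrices is a global maximum
-/

set_option autoImplicit false
set_option linter.unusedSectionVars false

namespace Pool.Agent.W981.Den

open Pool.Agent.W981.Hyp Pool.Agent.W981.Blk Pool.Agent.W981.Aff Module Matrix
open Pool.Agent.W981.Loc (pt rank_pert exists_ginv rank_add_ker)

section near

variable {σ K : Type*} [Field K] [DecidableEq σ]

/-- `x` and `h` differ in at most `c` coordinates -/
def near (c : ℕ) (h x : σ → K) : Prop := ∃ S : Finset σ, S.card ≤ c ∧ ∀ k, k ∉ S → x k = h k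

theorem near_refl (c : ℕ) (h : σ → K) : near c h h := ⟨∅, by simp, fun _ _ => rfl⟩

theorem near_mono {c c' : ℕ} (hc : c ≤ c') {h x : σ → K} (hx : near c h x) : near c' h x := by
  obtain ⟨S, h1, h2⟩ := hx
  exact ⟨S, h1.trans hc, h2⟩

theorem near_trans {c c' : ℕ} {h x y : σ → K} (h1 : near c h x) (h2 : near c' x y) :
    near (c + c') h y := by
  obtain ⟨S, a1, a2⟩ := h1
  obtain ⟨S', b1, b2⟩ := h2
  refine ⟨S ∪ S', (Finset.card_union_le _ _).trans (Nat.add_le_add a1 b1), fun k hk => ?_⟩
  rw [Finset.mem_union, not_or] at hk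
  rw [b2 k hk.2, a2 k hk.1]

theorem near_smul {c : ℕ} {v : σ → K} (hv : near c 0 v) (x : σ → K) (s : K) :
    near c x (x + s • v) := by
  obtain ⟨S, a1, a2⟩ := hv
  refine ⟨S, a1, fun k hk => ?_⟩
  rw [Pi.add_apply, Pi.smul_apply, a2 k hk, Pi.zero_apply, smul_zero, add_zero]

theorem near_single (k : σ) (a : K) : near 1 0 (Pi.single k a : σ → K) := by
  refine ⟨{k}, by simp, fun l hl => ?_⟩
  rw [Finset.mem_singleton] at hl
  rw [Pi.single_eq_of_ne hl, Pi.zero_apply]

theorem near_add {c c' : ℕ} {u v : σ → K} (h1 : near c 0 u) (h2 : near c' 0 v) :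
    near (c + c') 0 (u + v) := by
  refine near_trans h1 ?_
  have := near_smul h2 u 1
  rwa [one_smul] at this

end near

section dir

variable {σ K : Type*} [Field K] [DecidableEq σ] [Fintype σ] {n m : Type*} [Fintype n]
  [DecidableEq n] [Fintype m] [DecidableEq m]

/-- the matrix of a direction -/
def dirm (A : σ → Matrix m n K) (v : σ → K) : Matrix m n K := ∑ k, v k • A k

theorem pt_add (B : Matrix m n K) (A : σ → Matrix m n K) (x v : σ → K) (s : K) :
    pt B A (x + s • v) = pt B A x + s • dirm A v := by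
  rw [pt, pt, dirm, add_assoc, Finset.smul_sum, ← Finset.sum_add_distrib]
  congr 1
  refine Finset.sum_congr rfl fun k _ => ?_
  rw [Pi.add_apply, Pi.smul_apply, smul_eq_mul, add_smul, smul_smul]

theorem dirm_single (A : σ → Matrix m n K) (k : σ) : dirm A (Pi.single k 1) = A k := by
  rw [dirm, Finset.sum_eq_single k]
  · rw [Pi.single_eq_same, one_smul]
  · intro l _ hl
    rw [Pi.single_eq_of_ne hl, zero_smul]
  · intro h
    exact absurd (Finset.mem_univ _) h

theorem dirm_add (A : σ → Matrix m n K) (u v : σ → K) :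
    dirm A (u + v) = dirm A u + dirm A v := by
  rw [dirm, dirm, dirm, ← Finset.sum_add_distrib]
  refine Finset.sum_congr rfl fun k _ => ?_
  rw [Pi.add_apply, add_smul]

theorem pt_transpose (B : Matrix m n K) (A : σ → Matrix m n K) (x : σ → K) :
    pt Bᵀ (fun k => (A k)ᵀ) x = (pt B A x)ᵀ := by
  rw [pt, pt, Matrix.transpose_add, Matrix.transpose_sum]
  simp only [Matrix.transpose_smul]

theorem pt_pt (B : Matrix m n K) (A : σ → Matrix m n K) (x y : σ → K) :
    pt (pt B A x) A y = pt B A (x + y) := by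
  rw [pt, pt, pt, add_assoc, ← Finset.sum_add_distrib]
  congr 1
  refine Finset.sum_congr rfl fun k _ => ?_
  rw [Pi.add_apply, add_smul]

end dir

section loc

variable {σ K : Type*} [Field K] [Infinite K] [DecidableEq σ] [Fintype σ] {n m : Type*}
  [Fintype n] [DecidableEq n] [Fintype m] [DecidableEq m]

/-- the rank is at most `r` at the points near `h` -/
def LocMax (B : Matrix m n K) (A : σ → Matrix m n K) (r c : ℕ) (h : σ → K) : Prop :=
  ∀ x, near c h x → (pt B A x).rank ≤ r

/-- good points -/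
def Gd (B : Matrix m n K) (A : σ → Matrix m n K) (r c : ℕ) (h x : σ → K) : Prop :=
  near c h x ∧ r ≤ (pt B A x).rank

/-- the codimension of the span of the `A_k z` -/
noncomputable def ee (B : Matrix m n K) (A : σ → Matrix m n K) (x : σ → K) : ℕ :=
  finrank K (perp (AKs A (pt B A x)))

/-- the span of the kernels at the good points -/
def KX (B : Matrix m n K) (A : σ → Matrix m n K) (r c : ℕ) (h : σ → K) :
    Submodule K (n → K) :=
  Submodule.span K {z | ∃ x, Gd B A r c h x ∧ pt B A x *ᵥ z = 0}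

variable {B : Matrix m n K} {A : σ → Matrix m n K} {r C : ℕ} {h : σ → K}

theorem locMax_transpose (hl : LocMax B A r C h) : LocMax Bᵀ (fun k => (A k)ᵀ) r C h := by
  intro x hx
  rw [pt_transpose, Matrix.rank_transpose]
  exact hl x hx

theorem rank_line (hl : LocMax B A r C h) {c c' : ℕ} (hc : c + c' ≤ C) {x v : σ → K}
    (hx : Gd B A r c h x) (hv : near c' 0 v) (s : K) :
    (pt B A x + s • dirm A v).rank ≤ (pt B A x).rank := by
  rw [← pt_add]
  exact (hl _ (near_mono hc (near_trans hx.1 (near_smul hv x s)))).trans hx.2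

theorem rank_line_single (hl : LocMax B A r C h) {c : ℕ} (hc : c + 1 ≤ C) {x : σ → K}
    (hx : Gd B A r c h x) (k : σ) (s : K) :
    (pt B A x + s • A k).rank ≤ (pt B A x).rank := by
  have := rank_line hl hc hx (near_single k 1) s
  rwa [dirm_single] at this

theorem gd_line {c c' : ℕ} {x v : σ → K} (hx : Gd B A r c h x) (hv : near c' 0 v) {s : K}
    (hs : (pt B A x).rank ≤ (pt B A x + s • dirm A v).rank) :
    Gd B A r (c + c') h (x + s • v) := by
  refine ⟨near_trans hx.1 (near_smul hv x s), ?_⟩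
  rw [pt_add]
  exact hx.2.trans hs

/-- the tangent vectors -/
theorem tang (hl : LocMax B A r C h) {c : ℕ} (hc : c + 1 ≤ C) {x : σ → K}
    (hx : Gd B A r c h x) {G : Matrix n m K} (hG : pt B A x * G * pt B A x = pt B A x)
    (k : σ) {z : n → K} (hz : pt B A x *ᵥ z = 0) :
    pt B A x *ᵥ (G *ᵥ (A k *ᵥ z)) = A k *ᵥ z ∧ G *ᵥ (A k *ᵥ z) ∈ KX B A r (c + 1) h := by
  refine ⟨first_order hG (rank_line_single hl hc hx k) hz,
    tangent_mem hG (rank_line_single hl hc hx k) _ (fun s hs y hy => ?_) hz⟩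
  rw [← dirm_single A k] at hs hy
  rw [← pt_add] at hy
  exact Submodule.subset_span ⟨_, gd_line hx (near_single k 1) hs, hy⟩

theorem ker_le_KX {c : ℕ} {x : σ → K} (hx : Gd B A r c h x) :
    LinearMap.ker (pt B A x).mulVecLin ≤ KX B A r c h :=
  fun z hz => Submodule.subset_span ⟨x, hx, hz⟩

theorem KX_mono {c c' : ℕ} (hc : c ≤ c') : KX B A r c h ≤ KX B A r c' h := by
  refine Submodule.span_mono ?_
  rintro z ⟨x, hx, hz⟩
  exact ⟨x, ⟨near_mono hc hx.1, hx.2⟩, hz⟩

theorem finrank_perp_AKs (x : σ → K) : ee B A x + finrank K (AKs A (pt B A x)) =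
    Fintype.card m := finrank_perp _

/-- `m + s ≤ e + d` -/
theorem sum_loc (hl : LocMax B A r C h) {c : ℕ} (hc : c + 1 ≤ C) {x : σ → K}
    (hx : Gd B A r c h x) : Fintype.card m + (Fintype.card n - r) ≤
      ee B A x + finrank K (KX B A r (c + 1) h) := by
  obtain ⟨G, hG⟩ := exists_ginv (pt B A x)
  have h1 : AKs A (pt B A x) ≤ (KX B A r (c + 1) h).map (pt B A x).mulVecLin := by
    rw [AKs, Submodule.span_le]
    rintro _ ⟨k, z, hz, rfl⟩
    obtain ⟨a1, a2⟩ := tang hl hc hx hG k hz
    exact ⟨_, a2, a1⟩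
  have h2 := Submodule.finrank_mono h1
  have h3 := finrank_map_add (pt B A x).mulVecLin (KX B A r (c + 1) h)
  have h4 : LinearMap.ker (pt B A x).mulVecLin ⊓ KX B A r (c + 1) h =
      LinearMap.ker (pt B A x).mulVecLin :=
    inf_eq_left.2 ((ker_le_KX hx).trans (KX_mono (Nat.le_succ c)))
  rw [h4] at h3
  have h5 := rank_add_ker (pt B A x)
  have h6 := finrank_perp_AKs (B := B) (A := A) x
  have h7 := hl x (near_mono (by omega) hx.1)
  omega

/-- `s ≤ e` -/
theorem s_le_ee (hl : LocMax B A r C h) {c : ℕ} (hc : c + 1 ≤ C) {x : σ → K}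
    (hx : Gd B A r c h x) : Fintype.card m - r ≤ ee B A x := by
  obtain ⟨G, hG⟩ := exists_ginv (pt B A x)
  have h1 : LinearMap.ker (pt B A x)ᵀ.mulVecLin ≤ perp (AKs A (pt B A x)) := by
    intro w hw y hy
    have hw' : w ᵥ* pt B A x = 0 := by
      rw [← Matrix.mulVec_transpose]
      exact hw
    rw [AKs] at hy
    induction hy using Submodule.span_induction with
    | mem y hy =>
      obtain ⟨k, z, hz, rfl⟩ := hy
      rw [← (tang hl hc hx hG k hz).1, dotProduct_mulVec, hw', zero_dotProduct]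
    | zero => rw [dotProduct_zero]
    | add y y' _ _ hy hy' => rw [dotProduct_add, hy, hy', add_zero]
    | smul c y _ hy => rw [dotProduct_smul, hy, smul_zero]
  have h2 := Submodule.finrank_mono h1
  have h3 := rank_add_ker (pt B A x)ᵀ
  rw [Matrix.rank_transpose] at h3
  have h4 := hl x (near_mono (by omega) hx.1)
  change _ ≤ finrank K (perp (AKs A (pt B A x)))
  omega

/-- `e d ≤ dim 𝒩` for some good point -/
theorem prod_loc (hr : r ≤ (pt B A h).rank) (c : ℕ) : ∃ x, Gd B A r c h x ∧
    ee B A x * finrank K (KX B A r c h) ≤ finrank K (ann fun k => (A k)ᵀ) := by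
  by_contra hcon
  have hcon' : ∀ x, Gd B A r c h x → finrank K (ann fun k => (A k)ᵀ) <
      ee B A x * finrank K (KX B A r c h) := by
    intro x hx
    by_contra h0
    exact hcon ⟨x, hx, not_lt.1 h0⟩
  obtain ⟨z, hz, -, hli⟩ := Submodule.exists_fun_fin_finrank_span_eq K
    {z | ∃ x, Gd B A r c h x ∧ pt B A x *ᵥ z = 0}
  choose x hx hxz using hz
  have h2 := count hli (ann fun k => (A k)ᵀ) ⊥ (fun a => perp (AKs A (pt B A (x a)))) (by
    intro a τ hτ
    refine ⟨vecMulVec (z a) τ, vecMulVec_mem_ann fun k => ?_, fun η => ?_⟩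
    · rw [dotProduct_mulVec, vecMul_transpose, dotProduct_comm]
      exact hτ _ (Submodule.subset_span ⟨k, z a, hxz a, rfl⟩)
    · rw [sub_self, vecMul_zero]
      exact Submodule.zero_mem _)
  rw [finrank_bot] at h2
  simp only [Nat.sub_zero] at h2
  have h3 : finrank K (KX B A r c h) ≠ 0 := by
    intro h0
    have := hcon' h ⟨near_refl c h, hr⟩
    rw [h0, mul_zero] at this
    exact Nat.not_lt_zero _ this
  have h4 : ∑ _a : Fin (finrank K (KX B A r c h)), finrank K (ann fun k => (A k)ᵀ) <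
      ∑ a : Fin (finrank K (KX B A r c h)), ee B A (x a) * finrank K (KX B A r c h) := by
    refine Finset.sum_lt_sum_of_nonempty ?_ fun a _ => hcon' (x a) (hx a)
    rw [Finset.univ_nonempty_iff, ← Fin.pos_iff_nonempty]
    exact Nat.pos_of_ne_zero h3
  rw [← Finset.sum_mul, Finset.sum_const, Finset.card_univ, Fintype.card_fin, smul_eq_mul,
    mul_comm] at h4
  exact absurd (Nat.mul_le_mul_right (finrank K (KX B A r c h)) h2) (not_le.2 h4)

end loc

end Pool.Agent.W981.Den
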