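import Pool.Agent.W981.Den.Local

/-!
# A local maximum of the rank in a large space of matrices is a global maximum, II
-/

set_option autoImplicit false
set_option linter.unusedSectionVars false

namespace Pool.Agent.W981.Den

open Pool.Agent.W981.Hyp Pool.Agent.W981.Blk Pool.Agent.W981.Aff Module Matrix
open Pool.Agent.W981.Loc (pt rank_pert exists_ginv rank_add_ker)

section arith

theorem arith1 {k q N a e1 e2 e3 e4 d1 d2 d3 : ℕ} (hk : 1 ≤ k) (hq : q = k + 1)
    (ha : a + q * (k * q) < q * N) (h1 : e1 * q ≤ a) (g1 : N + 1 ≤ e1 + d1) (h2 : e2 * d1 ≤ a)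
    (g2 : N + 1 ≤ e2 + d2) (h3 : e3 * d2 ≤ a) (g3 : N + 1 ≤ e3 + d3) (h4 : e4 * d3 ≤ a) :
    e4 ≤ k := by
  have b1 : e1 + k * q < N := by
    have : q * (e1 + k * q) < q * N := by nlinarith
    exact Nat.lt_of_mul_lt_mul_left this
  have b2 : k * q + 2 ≤ d1 := by omega
  have b3 : e2 * (k * q + 2) ≤ a := (Nat.mul_le_mul_left _ b2).trans h2
  have b4 : e3 ≤ k + 2 := by
    by_contra hcon
    have c1 : k + 3 ≤ e3 := by omega
    have c2 : (k + 3) * d2 ≤ a := (Nat.mul_le_mul_right _ c1).trans h3
    have c3 : (k + 3) * (N + 1) ≤ a + (k + 3) * e2 := by nlinarith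
    have c4 : (k + 3) * (N + 1) * (k * q + 2) ≤ a * (k * q + 2) + (k + 3) * a := by
      calc (k + 3) * (N + 1) * (k * q + 2) ≤ (a + (k + 3) * e2) * (k * q + 2) :=
            Nat.mul_le_mul_right _ c3
        _ = a * (k * q + 2) + (k + 3) * (e2 * (k * q + 2)) := by ring
        _ ≤ _ := Nat.add_le_add_left (Nat.mul_le_mul_left _ b3) _
    have c5 : a * (k * q + 2) + (k + 3) * a = a * (k * q + k + 5) := by ring
    have c6 : a * (k * q + k + 5) ≤ q * N * (k * q + k + 5) :=
      Nat.mul_le_mul_right _ (by omega)
    have c7 : q * (k * q + k + 5) ≤ (k + 3) * (k * q + 2) := by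
      subst hq
      nlinarith [sq_nonneg ((k : ℤ) - 1), mul_self_nonneg ((k : ℤ) - 1), Nat.mul_self_le_mul_self hk]
    have c8 : (k + 3) * (N + 1) * (k * q + 2) ≤ N * ((k + 3) * (k * q + 2)) := by
      calc (k + 3) * (N + 1) * (k * q + 2) ≤ a * (k * q + k + 5) := by rw [← c5]; exact c4
        _ ≤ q * N * (k * q + k + 5) := c6
        _ = N * (q * (k * q + k + 5)) := by ring
        _ ≤ _ := Nat.mul_le_mul_left _ c7
    have c9 : 0 < (k + 3) * (k * q + 2) := by positivity
    nlinarith
  by_contra hcon
  have c1 : q ≤ e4 := by omega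
  have c2 : q * d3 ≤ a := (Nat.mul_le_mul_right _ c1).trans h4
  have c3 : d3 + k * q < N := by
    have : q * (d3 + k * q) < q * N := by nlinarith
    exact Nat.lt_of_mul_lt_mul_left this
  have c4 : q ≤ k * q := Nat.le_mul_of_pos_left q hk
  omega

theorem arith2 {k N a s e f : ℕ} (ha : a + (k + 1) * (k * (k + 1)) < (k + 1) * N)
    (he : e ≤ k) (hs : s ≤ e) (hf : f = k + 1)
    (h : f * (N + s - k - f * s) ≤ a) : False := by
  subst hf
  have h1 : k * (k + 1) < N := by
    have : (k + 1) * (k * (k + 1)) < (k + 1) * N := by omega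
    exact Nat.lt_of_mul_lt_mul_left this
  have h2 : s ≤ k := hs.trans he
  have h3 : N ≤ (N + s - k - (k + 1) * s) + k * (k + 1) := by
    have : (k + 1) * s + k ≤ s + k * (k + 1) := by nlinarith
    omega
  have h4 : (k + 1) * N ≤ (k + 1) * (N + s - k - (k + 1) * s) + (k + 1) * (k * (k + 1)) := by
    rw [← Nat.mul_add]
    exact Nat.mul_le_mul_left _ h3
  omega

end arith

section loc

variable {σ K : Type*} [Field K] [Infinite K] [DecidableEq σ] [Fintype σ] {n m : Type*}
  [Fintype n] [DecidableEq n] [Fintype m] [DecidableEq m] {B : Matrix m n K}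
  {A : σ → Matrix m n K} {r C : ℕ} {h : σ → K}

theorem finrank_iSup_le' {f : ℕ} (V : Fin f → Submodule K (n → K)) :
    finrank K (⨆ i, V i : Submodule K (n → K)) ≤ ∑ i, finrank K (V i) := by
  have h1 : ∀ s : Finset (Fin f), finrank K (s.sup V : Submodule K (n → K)) ≤
      ∑ i ∈ s, finrank K (V i) := by
    intro s
    induction s using Finset.induction_on with
    | empty => simp
    | insert a s ha ih =>
      rw [Finset.sup_insert, Finset.sum_insert ha]
      exact (Submodule.finrank_add_le_finrank_add_finrank _ _).trans (Nat.add_le_add_left ih _)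
  have h2 := h1 Finset.univ
  rw [Finset.sup_univ_eq_iSup] at h2
  exact h2

theorem finrank_ker_le {c : ℕ} {x : σ → K} (hx : Gd B A r c h x) :
    finrank K (LinearMap.ker (pt B A x).mulVecLin) ≤ Fintype.card n - r := by
  have h1 := rank_add_ker (pt B A x)
  have h2 := hx.2
  omega

/-- the tangent argument -/
theorem tangent_loc (hl : LocMax B A r C h) {c k f : ℕ} (hc : c + 2 ≤ C)
    (x : Fin f → σ → K) (hx : ∀ i, Gd B A r c h (x i)) (he : ∀ i, ee B A (x i) ≤ k)
    (w : Fin f → m → K) (hw : ∀ i, w i ᵥ* pt B A (x i) = 0) (hli : LinearIndependent K w) :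
    f * (Fintype.card m + (Fintype.card n - r) - k - f * (Fintype.card n - r)) ≤
      finrank K (ann A) := by
  set S : Submodule K (n → K) := ⨆ i, LinearMap.ker (pt B A (x i)).mulVecLin with hS
  have hSle : ∀ i, LinearMap.ker (pt B A (x i)).mulVecLin ≤ S := fun i => le_iSup
    (fun i => LinearMap.ker (pt B A (x i)).mulVecLin) i
  have hSr : finrank K S ≤ f * (Fintype.card n - r) := by
    have h1 : finrank K S ≤ ∑ i : Fin f, finrank K (LinearMap.ker (pt B A (x i)).mulVecLin) := by
      rw [hS]
      exact finrank_iSup_le' _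
    refine h1.trans ((Finset.sum_le_sum fun i _ => finrank_ker_le (hx i)).trans ?_)
    rw [Finset.sum_const, Finset.card_univ, Fintype.card_fin, smul_eq_mul]
  have h2 := count hli (ann A) S
    (fun i => (AKs A (pt B A (x i))).comap (pt B A (x i)).mulVecLin) (by
      intro i τ hτ
      obtain ⟨G, hG⟩ := exists_ginv (pt B A (x i))
      -- the claim for the elements of the span
      have key : ∀ y ∈ AKs A (pt B A (x i)), ∃ τ' : n → K, pt B A (x i) *ᵥ τ' = y ∧
          ∃ M ∈ ann A, ∀ η : m → K, η ᵥ* (M - vecMulVec (w i) τ') ∈ S := by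
        intro y hy
        rw [AKs] at hy
        induction hy using Submodule.span_induction with
        | mem y hy =>
          obtain ⟨k, z, hz, rfl⟩ := hy
          refine ⟨G *ᵥ (A k *ᵥ z), (tang hl (by omega) (hx i) hG k hz).1,
            vecMulVec (w i) (G *ᵥ (A k *ᵥ z)) + vecMulVec (w i ᵥ* (A k * G)) z,
            fun l => ?_, fun η => ?_⟩
          · have e4 : ∀ (x : m → K) (y : n → K), ∑ i, ∑ j, vecMulVec x y i j * A l i j =
                x ⬝ᵥ (A l *ᵥ y) := by
              intro x y
              simp only [vecMulVec_apply, dotProduct, mulVec, Finset.mul_sum]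
              exact Finset.sum_congr rfl fun i _ => Finset.sum_congr rfl fun j _ => by ring
            simp only [Matrix.add_apply, add_mul, Finset.sum_add_distrib]
            rw [e4, e4, ← dotProduct_mulVec, ← mulVec_mulVec]
            refine second_order hG (rank_line_single hl (by omega) (hx i) l)
              (rank_line_single hl (by omega) (hx i) k) (fun s => ?_) (hw i) hz
            have h3 := rank_line hl (c' := 1 + 1) (by omega) (hx i)
              (near_add (near_single l 1) (near_single k 1)) s
            rwa [dirm_add, dirm_single, dirm_single] at h3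
          · rw [add_sub_cancel_left, vecMul_vecMulVec]
            exact Submodule.smul_mem _ _ (hSle i hz)
        | zero =>
          refine ⟨0, mulVec_zero _, 0, Submodule.zero_mem _, fun η => ?_⟩
          have : vecMulVec (w i) (0 : n → K) = 0 := by
            ext i j
            simp [vecMulVec_apply]
          rw [this, sub_zero, vecMul_zero]
          exact Submodule.zero_mem _
        | add y y' _ _ hy hy' =>
          obtain ⟨τ₁, a1, M, hM, hM2⟩ := hy
          obtain ⟨τ₂, a2, M', hM', hM2'⟩ := hy'
          refine ⟨τ₁ + τ₂, by rw [mulVec_add, a1, a2], M + M', Submodule.add_mem _ hM hM',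
            fun η => ?_⟩
          have : M + M' - vecMulVec (w i) (τ₁ + τ₂) = (M - vecMulVec (w i) τ₁) +
              (M' - vecMulVec (w i) τ₂) := by
            ext i j
            simp only [vecMulVec_apply, Matrix.sub_apply, Matrix.add_apply, Pi.add_apply]
            ring
          rw [this, vecMul_add]
          exact Submodule.add_mem _ (hM2 η) (hM2' η)
        | smul b y _ hy =>
          obtain ⟨τ₁, a1, M, hM, hM2⟩ := hy
          refine ⟨b • τ₁, by rw [mulVec_smul, a1], b • M, Submodule.smul_mem _ _ hM,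
            fun η => ?_⟩
          have : b • M - vecMulVec (w i) (b • τ₁) = b • (M - vecMulVec (w i) τ₁) := by
            ext i j
            simp only [vecMulVec_apply, Matrix.sub_apply, Matrix.smul_apply, Pi.smul_apply,
              smul_eq_mul]
            ring
          rw [this, vecMul_smul]
          exact Submodule.smul_mem _ _ (hM2 η)
      obtain ⟨τ', b1, M, hM, hM2⟩ := key _ hτ
      refine ⟨M, hM, fun η => ?_⟩
      have b2 : τ - τ' ∈ S := by
        refine hSle i ?_
        rw [LinearMap.mem_ker, map_sub, sub_eq_zero]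
        exact b1.symm
      have b3 : M - vecMulVec (w i) τ = (M - vecMulVec (w i) τ') -
          vecMulVec (w i) (τ - τ') := by
        ext i j
        simp only [vecMulVec_apply, Matrix.sub_apply, Pi.sub_apply]
        ring
      rw [b3, vecMul_sub, vecMul_vecMulVec]
      exact Submodule.sub_mem _ (hM2 η) (Submodule.smul_mem _ _ b2))
  refine le_trans ?_ h2
  have h3 : ∀ i : Fin f, Fintype.card m + (Fintype.card n - r) - k - f * (Fintype.card n - r) ≤
      finrank K ((AKs A (pt B A (x i))).comap (pt B A (x i)).mulVecLin) - finrank K S := by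
    intro i
    obtain ⟨G, hG⟩ := exists_ginv (pt B A (x i))
    have e1 := finrank_map_add (pt B A (x i)).mulVecLin
      ((AKs A (pt B A (x i))).comap (pt B A (x i)).mulVecLin)
    have e2 : AKs A (pt B A (x i)) ≤ LinearMap.range (pt B A (x i)).mulVecLin := by
      rw [AKs, Submodule.span_le]
      rintro _ ⟨k, z, hz, rfl⟩
      exact ⟨_, (tang hl (by omega) (hx i) hG k hz).1⟩
    have e3 : LinearMap.ker (pt B A (x i)).mulVecLin ⊓
        (AKs A (pt B A (x i))).comap (pt B A (x i)).mulVecLin =
        LinearMap.ker (pt B A (x i)).mulVecLin := by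
      refine inf_eq_left.2 fun z hz => ?_
      rw [Submodule.mem_comap, LinearMap.mem_ker.1 hz]
      exact Submodule.zero_mem _
    rw [Submodule.map_comap_eq, inf_eq_right.2 e2, e3] at e1
    have e4 := finrank_perp_AKs (B := B) (A := A) (x i)
    have e5 := rank_add_ker (pt B A (x i))
    have e6 := hl (x i) (near_mono (by omega) (hx i).1)
    have e7 := he i
    omega
  calc f * (Fintype.card m + (Fintype.card n - r) - k - f * (Fintype.card n - r)) =
      ∑ _i : Fin f, (Fintype.card m + (Fintype.card n - r) - k -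
        f * (Fintype.card n - r)) := by
        rw [Finset.sum_const, Finset.card_univ, Fintype.card_fin, smul_eq_mul]
    _ ≤ _ := Finset.sum_le_sum fun a _ => h3 a

/-- the existence of a point with a small `e` -/
theorem exists_small_ee (hl : LocMax B A r C h) (hr : r ≤ (pt B A h).rank)
    (hrn : r < Fintype.card n) {k c : ℕ} (hk : 1 ≤ k)
    (hc : c + 3 ≤ C)
    (ha : finrank K (ann fun k => (A k)ᵀ) + (k + 1) * (k * (k + 1)) <
      (k + 1) * Fintype.card m)
    (hd : k + 1 ≤ finrank K (KX B A r c h)) :
    ∃ x, Gd B A r (c + 3) h x ∧ ee B A x ≤ k := by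
  obtain ⟨x1, a1, b1⟩ := prod_loc hr c
  obtain ⟨x2, a2, b2⟩ := prod_loc hr (c + 1)
  obtain ⟨x3, a3, b3⟩ := prod_loc hr (c + 2)
  obtain ⟨x4, a4, b4⟩ := prod_loc hr (c + 3)
  have g1 : Fintype.card m + (Fintype.card n - r) ≤
      ee B A x1 + finrank K (KX B A r (c + 1) h) := sum_loc hl (by omega) a1
  have g2 : Fintype.card m + (Fintype.card n - r) ≤
      ee B A x2 + finrank K (KX B A r (c + 2) h) := sum_loc hl (by omega) a2
  have g3 : Fintype.card m + (Fintype.card n - r) ≤
      ee B A x3 + finrank K (KX B A r (c + 3) h) := sum_loc hl (by omega) a3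
  exact ⟨x4, a4, arith1 hk rfl ha ((Nat.mul_le_mul_left _ hd).trans b1) (by omega) b2
    (by omega) b3 (by omega) b4⟩

end loc

end Pool.Agent.W981.Den
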