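import Pool.Agent.W981.Den.Basic

/-!
# Large spaces of matrices: the kernel or the cokernel has a small hull
-/

set_option autoImplicit false
set_option linter.unusedSectionVars false

namespace Pool.Agent.W981.Den

open Pool.Agent.W981.Hyp Pool.Agent.W981.Blk Pool.Agent.W981.Aff Module Matrix MvPolynomial

section ann

variable {σ K : Type*} [Field K] {n m : Type*} [Fintype n] [Fintype m]

/-- the matrices which are orthogonal to the given ones -/
def ann (A : σ → Matrix m n K) : Submodule K (Matrix m n K) where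
  carrier := {M | ∀ k, ∑ i, ∑ j, M i j * A k i j = 0}
  add_mem' := by
    intro M N hM hN k
    simp only [Matrix.add_apply, add_mul, Finset.sum_add_distrib]
    rw [hM k, hN k, add_zero]
  zero_mem' := by
    intro k
    simp
  smul_mem' := by
    intro c M hM k
    simp only [Matrix.smul_apply, smul_eq_mul, mul_assoc, ← Finset.mul_sum]
    rw [hM k, mul_zero]

theorem vecMulVec_mem_ann {A : σ → Matrix m n K} {w : m → K} {x : n → K}
    (h : ∀ k, w ⬝ᵥ (A k *ᵥ x) = 0) : vecMulVec w x ∈ ann A := by
  intro k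
  rw [← h k]
  simp only [vecMulVec_apply, dotProduct, mulVec, Finset.mul_sum]
  exact Finset.sum_congr rfl fun i _ => Finset.sum_congr rfl fun j _ => by ring

/-- matrices as functions on pairs -/
def unc : Matrix m n K ≃ₗ[K] (m × n → K) where
  toFun M := fun p => M p.1 p.2
  map_add' M N := rfl
  map_smul' c M := rfl
  invFun f := Matrix.of fun i j => f (i, j)
  left_inv M := rfl
  right_inv f := rfl

theorem finrank_ann (A : σ → Matrix m n K) :
    finrank K (ann A) + finrank K (Submodule.span K (Set.range A)) ≤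
      Fintype.card m * Fintype.card n := by
  classical
  have h1 : finrank K ((ann A).map (unc : Matrix m n K ≃ₗ[K] (m × n → K)).toLinearMap) +
      finrank K ((Submodule.span K (Set.range A)).map
        (unc : Matrix m n K ≃ₗ[K] (m × n → K)).toLinearMap) ≤ Fintype.card (m × n) := by
    refine finrank_perp_le _ _ ?_
    rintro _ ⟨M, hM, rfl⟩ _ ⟨N, hN, rfl⟩
    have h2 : ∀ M N : Matrix m n K, unc M ⬝ᵥ unc N = ∑ i, ∑ j, M i j * N i j := by
      intro M N
      rw [dotProduct, Fintype.sum_prod_type]
      rfl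
    change unc M ⬝ᵥ unc N = 0
    have hN' : N ∈ Submodule.span K (Set.range A) := hN
    induction hN' using Submodule.span_induction with
    | mem x hx =>
      obtain ⟨k, rfl⟩ := hx
      rw [h2]
      exact hM k
    | zero => rw [map_zero, dotProduct_zero]
    | add x y hx' hy' hx hy => rw [map_add, dotProduct_add, hx hx', hy hy', add_zero]
    | smul c x hx' hx => rw [map_smul, dotProduct_smul, hx hx', smul_zero]
  rw [LinearEquiv.finrank_map_eq, LinearEquiv.finrank_map_eq, Fintype.card_prod] at h1
  exact h1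

theorem finrank_span_transpose (A : σ → Matrix m n K) :
    finrank K (Submodule.span K (Set.range fun k => (A k)ᵀ)) =
      finrank K (Submodule.span K (Set.range A)) := by
  have h1 : Submodule.span K (Set.range fun k => (A k)ᵀ) =
      (Submodule.span K (Set.range A)).map
        (Matrix.transposeLinearEquiv m n K K).toLinearMap := by
    rw [Submodule.map_span, ← Set.range_comp]
    rfl
  rw [h1, LinearEquiv.finrank_map_eq]

end ann

section main

variable {σ K : Type*} [Field K] [DecidableEq σ] [Fintype σ] {n : Type*} [Fintype n]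

/-- the derivative of a polynomial vector -/
noncomputable def pd (k : σ) (y : n → MvPolynomial σ K) : n → MvPolynomial σ K :=
  fun i => pderiv k (y i)

theorem fr_pd (k : σ) (y : n → MvPolynomial σ K) : fr (pd k y) = dv (dF k) (fr y) := by
  funext i
  change algebraMap _ (FF σ K) (pderiv k (y i)) = dF k (algebraMap _ (FF σ K) (y i))
  rw [dF_algebraMap]

theorem fr_mulVec {m : Type*} (M : Matrix m n K) (y : n → MvPolynomial σ K) :
    M.map (algebraMap K (FF σ K)) *ᵥ fr y = fr (M.map C *ᵥ y) := by
  funext i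
  simp only [fr, mulVec, dotProduct, Matrix.map_apply, map_sum, map_mul,
    Pool.Agent.W981.Hyp.algebraMap_C]

theorem val_mulVec {m : Type*} (t : σ → K) (M : Matrix m n K) (y : n → MvPolynomial σ K) :
    M *ᵥ val t y = val t (M.map C *ᵥ y) := by
  funext i
  simp only [val, mulVec, dotProduct, Matrix.map_apply, map_sum, map_mul, eval_C]

/-- a relation over the big field holds at all points -/
theorem rel_val {m : Type*} [Fintype m] {x : m → MvPolynomial σ K} {y : n → MvPolynomial σ K}
    {M : Matrix m n K} (h : fr x ⬝ᵥ (M.map (algebraMap K (FF σ K)) *ᵥ fr y) = 0) (t : σ → K) :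
    val t x ⬝ᵥ (M *ᵥ val t y) = 0 := by
  rw [fr_mulVec, dot_fr, FaithfulSMul.algebraMap_eq_zero_iff] at h
  rw [val_mulVec, dot_val, h, map_zero]

/-- a relation with two terms -/
theorem rel_val2 {m : Type*} [Fintype m] {x x' : m → MvPolynomial σ K}
    {y y' : n → MvPolynomial σ K}
    {M : Matrix m n K} (h : fr x ⬝ᵥ (M.map (algebraMap K (FF σ K)) *ᵥ fr y) +
      fr x' ⬝ᵥ (M.map (algebraMap K (FF σ K)) *ᵥ fr y') = 0) (t : σ → K) :
    val t x ⬝ᵥ (M *ᵥ val t y) + val t x' ⬝ᵥ (M *ᵥ val t y') = 0 := by
  rw [fr_mulVec, dot_fr, fr_mulVec, dot_fr, ← map_add,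
    FaithfulSMul.algebraMap_eq_zero_iff] at h
  rw [val_mulVec, dot_val, val_mulVec, dot_val, ← map_add, h, map_zero]

/-- the kernel -/
noncomputable def ZZ (B : Matrix n n K) (A : σ → Matrix n n K) :
    Submodule (FF σ K) (n → FF σ K) := LinearMap.ker (gaf B A).mulVecLin

/-- the hull of the kernel -/
noncomputable def XX (B : Matrix n n K) (A : σ → Matrix n n K) : Submodule K (n → K) :=
  hull K (ZZ B A)

/-- the span of the vectors `A_k z` -/
noncomputable def AZ (B : Matrix n n K) (A : σ → Matrix n n K) :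
    Submodule (FF σ K) (n → FF σ K) :=
  ⨆ k, (ZZ B A).map ((A k).map (algebraMap K (FF σ K))).mulVecLin

theorem mem_AZ {B : Matrix n n K} {A : σ → Matrix n n K} {z : n → FF σ K} (hz : z ∈ ZZ B A)
    (k : σ) : (A k).map (algebraMap K (FF σ K)) *ᵥ z ∈ AZ B A :=
  Submodule.mem_iSup_of_mem k ⟨z, hz, rfl⟩

theorem AZ_le {B : Matrix n n K} {A : σ → Matrix n n K} {S : Submodule (FF σ K) (n → FF σ K)}
    (h : ∀ k, ∀ z ∈ ZZ B A, (A k).map (algebraMap K (FF σ K)) *ᵥ z ∈ S) : AZ B A ≤ S := by
  refine iSup_le fun k => ?_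
  rintro _ ⟨z, hz, rfl⟩
  exact h k z hz

theorem perp_AZ {B : Matrix n n K} {A : σ → Matrix n n K} {w z : n → FF σ K}
    (hw : w ∈ perp (AZ B A)) (hz : z ∈ ZZ B A) (k : σ) :
    w ⬝ᵥ ((A k).map (algebraMap K (FF σ K)) *ᵥ z) = 0 := hw _ (mem_AZ hz k)

variable (B : Matrix n n K) (A : σ → Matrix n n K)

theorem AZ_le_map : AZ B A ≤ (ext (FF σ K) (XX B A)).map (gaf B A).mulVecLin := by
  refine AZ_le fun k z hz => ?_
  have h1 := gaf_dv (B := B) (A := A) hz k
  refine ⟨-dv (dF k) z, Submodule.neg_mem _ (dv_mem _ (le_ext_hull _ hz)), ?_⟩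
  rw [mulVecLin_apply, mulVec_neg, h1, neg_neg]

theorem finrank_map_XX : finrank (FF σ K) ((ext (FF σ K) (XX B A)).map (gaf B A).mulVecLin) +
    finrank (FF σ K) (ZZ B A) = finrank K (XX B A) := by
  have h1 := finrank_map_add (gaf B A).mulVecLin (ext (FF σ K) (XX B A))
  have h2 : LinearMap.ker (gaf B A).mulVecLin ⊓ ext (FF σ K) (XX B A) = ZZ B A :=
    inf_eq_left.2 (le_ext_hull _)
  rw [h2, finrank_ext] at h1
  exact h1

theorem finrank_perp_AZ : finrank (FF σ K) (perp (AZ B A)) + finrank (FF σ K) (AZ B A) =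
    Fintype.card n := by
  classical
  exact finrank_perp _

/-- `n + s ≤ e + d` -/
theorem sum_ge : Fintype.card n + finrank (FF σ K) (ZZ B A) ≤
    finrank (FF σ K) (perp (AZ B A)) + finrank K (XX B A) := by
  have h1 := Submodule.finrank_mono (AZ_le_map B A)
  have h2 := finrank_map_XX B A
  have h3 := finrank_perp_AZ B A
  omega

/-- `e d ≤ dim 𝒩` -/
theorem prod_le [CharZero K] : finrank (FF σ K) (perp (AZ B A)) * finrank K (XX B A) ≤
    finrank K (ann fun k => (A k)ᵀ) := by
  classical
  have hinf : Infinite K := CharZero.infinite K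
  obtain ⟨zz, -, hzs⟩ := exists_poly_basis (ZZ B A)
  obtain ⟨ww, -, hws⟩ := exists_poly_basis (perp (AZ B A))
  obtain ⟨g, hg, hgt⟩ := exists_open ww
  have h1 := hull_le_values zz hg
  rw [hzs] at h1
  have h1' := Submodule.finrank_mono h1
  obtain ⟨x, hx, hxs, hxli⟩ := Submodule.exists_fun_fin_finrank_span_eq K
    {x | ∃ j t, eval t g ≠ 0 ∧ val t (zz j) = x}
  choose j t ht hv using hx
  have h2 := count hxli (ann fun k => (A k)ᵀ) ⊥
    (fun a => Submodule.span K (Set.range fun i => val (t a) (ww i))) (by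
      intro a τ hτ
      refine ⟨vecMulVec (x a) τ, vecMulVec_mem_ann fun k => ?_, fun η => ?_⟩
      · induction hτ using Submodule.span_induction with
        | mem y hy =>
          obtain ⟨i, rfl⟩ := hy
          rw [← hv a, dotProduct_mulVec, vecMul_transpose, dotProduct_comm]
          refine rel_val ?_ (t a)
          refine perp_AZ (B := B) (A := A) ?_ ?_ k
          · rw [← hws]
            exact Submodule.subset_span ⟨i, rfl⟩
          · rw [← hzs]
            exact Submodule.subset_span ⟨j a, rfl⟩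
        | zero => rw [mulVec_zero, dotProduct_zero]
        | add y y' _ _ hy hy' => rw [mulVec_add, dotProduct_add, hy, hy', add_zero]
        | smul c y _ hy => rw [mulVec_smul, dotProduct_smul, hy, smul_zero]
      · rw [sub_self, vecMul_zero]
        exact Submodule.zero_mem _)
  refine le_trans ?_ h2
  rw [finrank_bot]
  have h3 : ∀ a, finrank (FF σ K) (perp (AZ B A)) ≤
      finrank K (Submodule.span K (Set.range fun i => val (t a) (ww i))) := by
    intro a
    have := hgt (t a) (ht a)
    rwa [hws] at this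
  calc finrank (FF σ K) (perp (AZ B A)) * finrank K (XX B A)
      ≤ finrank (FF σ K) (perp (AZ B A)) * finrank K (Submodule.span K
        {x | ∃ j t, eval t g ≠ 0 ∧ val t (zz j) = x}) := Nat.mul_le_mul_left _ h1'
    _ = ∑ _a : Fin (finrank K (Submodule.span K
        {x | ∃ j t, eval t g ≠ 0 ∧ val t (zz j) = x})),
          finrank (FF σ K) (perp (AZ B A)) := by
        rw [Finset.sum_const, Finset.card_univ, Fintype.card_fin, smul_eq_mul, mul_comm]
    _ ≤ _ := Finset.sum_le_sum fun a _ => by
        rw [Nat.sub_zero]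
        exact h3 a

/-- the left kernel is orthogonal to all `A_k z` -/
theorem left_perp {w z : n → FF σ K} (hw : w ∈ ZZ Bᵀ fun k => (A k)ᵀ) (hz : z ∈ ZZ B A)
    (k : σ) : w ⬝ᵥ ((A k).map (algebraMap K (FF σ K)) *ᵥ z) = 0 := by
  classical
  have h1 := gaf_dv (B := B) (A := A) hz k
  have h2 : (gaf B A)ᵀ *ᵥ w = 0 := by
    have h3 : (gaf B A)ᵀ = gaf Bᵀ fun k => (A k)ᵀ := by
      rw [gaf, gaf, transpose_add, ← gen_transpose, ← transpose_map]
    rw [h3]
    exact hw
  have h4 : (A k).map (algebraMap K (FF σ K)) *ᵥ z = -(gaf B A *ᵥ dv (dF k) z) := by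
    rw [h1, neg_neg]
  rw [h4, dotProduct_neg, dotProduct_mulVec, ← mulVec_transpose, h2, zero_dotProduct, neg_zero]

theorem finrank_left : finrank (FF σ K) (ZZ Bᵀ fun k => (A k)ᵀ) =
    finrank (FF σ K) (ZZ B A) := by
  classical
  have h3 : (gaf B A)ᵀ = gaf Bᵀ fun k => (A k)ᵀ := by
    rw [gaf, gaf, transpose_add, ← gen_transpose, ← transpose_map]
  have e1 := LinearMap.finrank_range_add_finrank_ker (gaf B A).mulVecLin
  have e2 := LinearMap.finrank_range_add_finrank_ker (gaf Bᵀ fun k => (A k)ᵀ).mulVecLin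
  have e3 : (gaf Bᵀ fun k => (A k)ᵀ).rank = (gaf B A).rank := by
    rw [← h3, Matrix.rank_transpose]
  have e4 : finrank (FF σ K) (LinearMap.range (gaf B A).mulVecLin) = (gaf B A).rank := rfl
  have e5 : finrank (FF σ K) (LinearMap.range (gaf Bᵀ fun k => (A k)ᵀ).mulVecLin) =
    (gaf Bᵀ fun k => (A k)ᵀ).rank := rfl
  change finrank (FF σ K) (LinearMap.ker (gaf Bᵀ fun k => (A k)ᵀ).mulVecLin) =
    finrank (FF σ K) (LinearMap.ker (gaf B A).mulVecLin)
  omega

/-- `s ≤ e` -/
theorem s_le_e : finrank (FF σ K) (ZZ B A) ≤ finrank (FF σ K) (perp (AZ B A)) := by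
  rw [← finrank_left B A]
  refine Submodule.finrank_mono fun w hw => ?_
  change ∀ y ∈ AZ B A, w ⬝ᵥ y = 0
  intro y hy
  have h1 : AZ B A ≤ LinearMap.ker (⟨⟨fun y => w ⬝ᵥ y, fun a b => dotProduct_add _ _ _⟩,
      fun c a => dotProduct_smul _ _ _⟩ : (n → FF σ K) →ₗ[FF σ K] FF σ K) :=
    AZ_le fun k z hz => left_perp B A hw hz k
  exact h1 hy

/-- the tangent argument -/
theorem tangent [CharZero K] {c : ℕ} (hc : c ≤ finrank K (XX Bᵀ fun k => (A k)ᵀ)) :
    c * (Fintype.card n + finrank (FF σ K) (ZZ B A) - finrank (FF σ K) (perp (AZ B A)) -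
      c * finrank (FF σ K) (ZZ B A)) ≤ finrank K (ann A) := by
  classical
  have hinf : Infinite K := CharZero.infinite K
  obtain ⟨zz, -, hzs⟩ := exists_poly_basis (ZZ B A)
  obtain ⟨uu, -, hus⟩ := exists_poly_basis (ZZ Bᵀ fun k => (A k)ᵀ)
  -- the tangent vectors
  let tv : Option σ × Fin (finrank (FF σ K) (ZZ B A)) → n → MvPolynomial σ K :=
    fun p => p.1.elim (zz p.2) fun l => pd l (zz p.2)
  have htv : Fintype.card n + finrank (FF σ K) (ZZ B A) ≤ finrank (FF σ K)
      (Submodule.span (FF σ K) (Set.range fun p => fr (tv p))) +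
        finrank (FF σ K) (perp (AZ B A)) := by
    set T := Submodule.span (FF σ K) (Set.range fun p => fr (tv p)) with hT
    have e1 := finrank_map_add (gaf B A).mulVecLin T
    have e2 : ZZ B A ≤ T := by
      rw [← hzs, Submodule.span_le]
      rintro _ ⟨j, rfl⟩
      exact Submodule.subset_span ⟨(none, j), rfl⟩
    have e3 : LinearMap.ker (gaf B A).mulVecLin ⊓ T = ZZ B A := inf_eq_left.2 e2
    have e4 : AZ B A ≤ T.map (gaf B A).mulVecLin := by
      refine AZ_le fun k z hz => ?_
      rw [← hzs] at hz
      induction hz using Submodule.span_induction with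
      | mem y hy =>
        obtain ⟨j, rfl⟩ := hy
        have hj : fr (zz j) ∈ ZZ B A := by
          rw [← hzs]
          exact Submodule.subset_span ⟨j, rfl⟩
        have h1 := gaf_dv (B := B) (A := A) hj k
        refine ⟨-fr (pd k (zz j)), Submodule.neg_mem _
          (Submodule.subset_span ⟨(some k, j), rfl⟩), ?_⟩
        rw [mulVecLin_apply, mulVec_neg, fr_pd, h1, neg_neg]
      | zero => rw [mulVec_zero]; exact Submodule.zero_mem _
      | add y y' _ _ hy hy' => rw [mulVec_add]; exact Submodule.add_mem _ hy hy'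
      | smul r y _ hy => rw [mulVec_smul]; exact Submodule.smul_mem _ _ hy
    have e5 := Submodule.finrank_mono e4
    have e6 := finrank_perp_AZ B A
    rw [e3] at e1
    omega
  obtain ⟨g, hg, hgt⟩ := exists_open tv
  have h1 := hull_le_values uu hg
  rw [hus] at h1
  have h1' := Submodule.finrank_mono h1
  obtain ⟨w, hw, hws, hwli⟩ := Submodule.exists_fun_fin_finrank_span_eq K
    {x | ∃ j t, eval t g ≠ 0 ∧ val t (uu j) = x}
  choose j t ht hv using hw
  -- the first `c` of them
  have hc' : c ≤ finrank K (Submodule.span K {x | ∃ j t, eval t g ≠ 0 ∧ val t (uu j) = x}) :=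
    hc.trans h1'
  let ιc : Fin c → Fin (finrank K (Submodule.span K
    {x | ∃ j t, eval t g ≠ 0 ∧ val t (uu j) = x})) := Fin.castLE hc'
  have hwli' : LinearIndependent K (fun i => w (ιc i)) :=
    hwli.comp _ (Fin.castLE_injective hc')
  set S : Submodule K (n → K) := Submodule.span K (Set.range
    fun p : Fin c × Fin (finrank (FF σ K) (ZZ B A)) => val (t (ιc p.1)) (zz p.2)) with hS
  have hSr : finrank K S ≤ c * finrank (FF σ K) (ZZ B A) := by
    refine (finrank_range_le_card _).trans ?_
    rw [Fintype.card_prod, Fintype.card_fin, Fintype.card_fin]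
  have h2 := count hwli' (ann A) S
    (fun a => Submodule.span K (Set.range fun p => val (t (ιc a)) (tv p))) (by
      intro a τ hτ
      induction hτ using Submodule.span_induction with
      | mem y hy =>
        obtain ⟨⟨o, l⟩, rfl⟩ := hy
        have hzl : fr (zz l) ∈ ZZ B A := by
          rw [← hzs]
          exact Submodule.subset_span ⟨l, rfl⟩
        have huj : fr (uu (j (ιc a))) ∈ ZZ Bᵀ fun k => (A k)ᵀ := by
          rw [← hus]
          exact Submodule.subset_span ⟨_, rfl⟩
        have hSm : val (t (ιc a)) (zz l) ∈ S := Submodule.subset_span ⟨(a, l), rfl⟩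
        rcases o with _ | q
        · -- a vector of the kernel
          refine ⟨0, Submodule.zero_mem _, fun η => ?_⟩
          change η ᵥ* (0 - vecMulVec (w (ιc a)) (val (t (ιc a)) (zz l))) ∈ S
          rw [zero_sub, vecMul_neg, vecMul_vecMulVec]
          exact Submodule.neg_mem _ (Submodule.smul_mem _ _ hSm)
        · -- a tangent vector
          refine ⟨vecMulVec (w (ιc a)) (val (t (ιc a)) (pd q (zz l))) +
            vecMulVec (val (t (ιc a)) (pd q (uu (j (ιc a))))) (val (t (ιc a)) (zz l)),
            ?_, fun η => ?_⟩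
          · intro k
            have e1 : fr (uu (j (ιc a))) ⬝ᵥ ((A k).map (algebraMap K (FF σ K)) *ᵥ
                fr (pd q (zz l))) + fr (pd q (uu (j (ιc a)))) ⬝ᵥ
                ((A k).map (algebraMap K (FF σ K)) *ᵥ fr (zz l)) = 0 := by
              have e2 := congrArg (dF q) (left_perp B A huj hzl k)
              rw [map_zero, dot_leibniz, dv_const_mulVec] at e2
              rw [fr_pd, fr_pd]
              rw [add_comm]
              exact e2
            have e3 := rel_val2 e1 (t (ιc a))
            rw [hv] at e3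
            have e4 : ∀ (x : n → K) (y : n → K), ∑ i, ∑ j, vecMulVec x y i j * A k i j =
                x ⬝ᵥ (A k *ᵥ y) := by
              intro x y
              simp only [vecMulVec_apply, dotProduct, mulVec, Finset.mul_sum]
              exact Finset.sum_congr rfl fun i _ => Finset.sum_congr rfl fun j _ => by ring
            simp only [Matrix.add_apply, add_mul, Finset.sum_add_distrib]
            rw [e4, e4]
            exact e3
          · change η ᵥ* (_ - vecMulVec (w (ιc a)) (val (t (ιc a)) (pd q (zz l)))) ∈ S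
            rw [add_sub_cancel_left, vecMul_vecMulVec]
            exact Submodule.smul_mem _ _ hSm
      | zero =>
        refine ⟨0, Submodule.zero_mem _, fun η => ?_⟩
        have : vecMulVec (w (ιc a)) (0 : n → K) = 0 := by
          ext i j
          simp [vecMulVec_apply]
        rw [this, sub_zero, vecMul_zero]
        exact Submodule.zero_mem _
      | add y y' _ _ hy hy' =>
        obtain ⟨M, hM, hM2⟩ := hy
        obtain ⟨M', hM', hM2'⟩ := hy'
        refine ⟨M + M', Submodule.add_mem _ hM hM', fun η => ?_⟩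
        have : M + M' - vecMulVec (w (ιc a)) (y + y') = (M - vecMulVec (w (ιc a)) y) +
            (M' - vecMulVec (w (ιc a)) y') := by
          ext i j
          simp only [vecMulVec_apply, Matrix.sub_apply, Matrix.add_apply, Pi.add_apply]
          ring
        rw [this, vecMul_add]
        exact Submodule.add_mem _ (hM2 η) (hM2' η)
      | smul r y _ hy =>
        obtain ⟨M, hM, hM2⟩ := hy
        refine ⟨r • M, Submodule.smul_mem _ _ hM, fun η => ?_⟩
        have : r • M - vecMulVec (w (ιc a)) (r • y) = r • (M - vecMulVec (w (ιc a)) y) := by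
          ext i j
          simp only [vecMulVec_apply, Matrix.sub_apply, Matrix.smul_apply, Pi.smul_apply,
            smul_eq_mul]
          ring
        rw [this, vecMul_smul]
        exact Submodule.smul_mem _ _ (hM2 η))
  refine le_trans ?_ h2
  have h3 : ∀ a : Fin c, Fintype.card n + finrank (FF σ K) (ZZ B A) -
      finrank (FF σ K) (perp (AZ B A)) - c * finrank (FF σ K) (ZZ B A) ≤
      finrank K (Submodule.span K (Set.range fun p => val (t (ιc a)) (tv p))) -
        finrank K S := by
    intro a
    have := hgt (t (ιc a)) (ht (ιc a))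
    omega
  calc c * (Fintype.card n + finrank (FF σ K) (ZZ B A) - finrank (FF σ K) (perp (AZ B A)) -
      c * finrank (FF σ K) (ZZ B A)) = ∑ _a : Fin c, (Fintype.card n +
        finrank (FF σ K) (ZZ B A) - finrank (FF σ K) (perp (AZ B A)) -
      c * finrank (FF σ K) (ZZ B A)) := by
        rw [Finset.sum_const, Finset.card_univ, Fintype.card_fin, smul_eq_mul]
    _ ≤ _ := Finset.sum_le_sum fun a _ => h3 a

end main

end Pool.Agent.W981.Den
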